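import Pool.Agent.V8H11.OVC.Neg

set_option autoImplicit false

/-!
# The chain of the noises, and the average over random circuits
-/

namespace Pool.Agent.V8H11.OVC

open Finset
open scoped Classical

/-- The union of the first `r` noises. -/
def Yt {n d N R : ℕ} [NeZero N] (W : Fin R → Ns n d N) (r : ℕ) : Tab n d :=
  fun ρ k => decide (∃ l : Fin R, l.val < r ∧ W l ρ k ≠ 0)

lemma Yt_succ {n d N R : ℕ} [NeZero N] (W : Fin R → Ns n d N) (r : Fin R) :
    Yt W (r + 1) = Yt W r ⊔ ns (W r) := by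
  funext ρ k
  simp only [Yt, Pi.sup_apply, ns, bits]
  rw [Bool.eq_iff_iff]
  simp only [decide_eq_true_eq, Bool.sup_eq_bor, Bool.or_eq_true]
  constructor
  · rintro ⟨l, h1, h2⟩
    rcases Nat.lt_succ_iff_lt_or_eq.1 h1 with h3 | h3
    · exact Or.inl ⟨l, h3, h2⟩
    · right
      rw [Fin.ext h3] at h2
      exact h2
  · rintro (⟨l, h1, h2⟩ | h)
    · exact ⟨l, by omega, h2⟩
    · exact ⟨r, by omega, h⟩

lemma Yt_mono {n d N R : ℕ} [NeZero N] (W : Fin R → Ns n d N) {r s : ℕ} (h : r ≤ s) :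
    Yt W r ≤ Yt W s := by
  intro ρ k
  simp only [Yt]
  rw [Bool.le_iff_imp]
  simp only [decide_eq_true_eq]
  rintro ⟨l, h1, h2⟩
  exact ⟨l, by omega, h2⟩

lemma Yt_congr {n d N R : ℕ} [NeZero N] (W W' : Fin R → Ns n d N) (r : Fin R)
    (h : ∀ l, l ≠ r → W l = W' l) : Yt W r = Yt W' r := by
  funext ρ k
  simp only [Yt]
  rw [decide_eq_decide]
  refine exists_congr fun l => and_congr_right fun hl => ?_
  rw [h l (by rintro rfl; exact lt_irrefl _ hl)]

/-- One step of the chain. -/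
lemma step {n d m N R : ℕ} [NeZero N] (hn : 1 ≤ n) (hm : 1 ≤ m) (hN : N = 2 * m) {σ ε : ℝ}
    (hσ0 : 0 ≤ σ) (hσ1 : σ ≤ 1) {M : ℕ} (hε : (1 - σ) ^ M ≤ ε)
    {l : List (Tab n d → Prop)} {s s' : ℕ} (h : Comp n d l s) (hs : s ≤ s') (F : Tab n d → Prop)
    (hF : F ∈ l) (r : Fin R) :
    pr (fun q : (Fin R → Ns n d N) × Pl n d => F (Yt q.1 r ⊔ pl q.2) ∧ ¬ F (Yt q.1 (r + 1))) ≤
      loss m n M s' σ ε := by
  have hε0 : 0 ≤ ε := le_trans (pow_nonneg (by linarith) M) hε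
  have hl0 : 0 ≤ loss m n M s' σ ε := by unfold loss; positivity
  set E : ({j : Fin R // j ≠ r} → Ns n d N) × (Ns n d N × Pl n d) ≃
      (Fin R → Ns n d N) × Pl n d :=
    ((Equiv.prodAssoc _ _ _).symm.trans (((Equiv.prodComm _ _).trans
      (Equiv.funSplitAt r (Ns n d N)).symm).prodCongr (Equiv.refl _))) with hE
  rw [← pr_equiv E]
  apply pr_prod_le _ _ hl0
  intro a
  have hz : ∀ w w' : Ns n d N, Yt ((Equiv.funSplitAt r (Ns n d N)).symm (w, a)) r =
      Yt ((Equiv.funSplitAt r (Ns n d N)).symm (w', a)) r := by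
    intro w w'
    apply Yt_congr
    intro l hl
    simp [Equiv.funSplitAt, Equiv.piSplitAt, hl]
  set z : Tab n d := Yt ((Equiv.funSplitAt r (Ns n d N)).symm (fun _ _ => 0, a)) r with hzd
  refine le_trans (pr_mono ?_) ((dichotomy (N := N) hn hm hN hσ0 hσ1 hε z h F hF).trans
    (loss_mono hσ0 hε0 hs))
  rintro ⟨w, x⟩ hw
  have h1 : E (a, (w, x)) = ((Equiv.funSplitAt r (Ns n d N)).symm (w, a), x) := rfl
  rw [h1] at hw
  simp only at hw
  rw [Yt_succ, hz w (fun _ _ => 0)] at hw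
  have h2 : (Equiv.funSplitAt r (Ns n d N)).symm (w, a) r = w := by
    simp [Equiv.funSplitAt, Equiv.piSplitAt]
  rw [h2] at hw
  exact hw

/-- The union of all the noises does not cover. -/
lemma cover {n d N R : ℕ} [NeZero N] :
    pr (fun q : (Fin R → Ns n d N) × Pl n d => Cov (Yt q.1 R)) ≤
      (n : ℝ) ^ 2 * (1 - 1 / (N : ℝ) ^ (2 * R)) ^ d := by
  have hN0 : (0 : ℝ) < N := by exact_mod_cast Nat.pos_of_ne_zero (NeZero.ne N)
  have hN1 : (1 : ℝ) ≤ N := by exact_mod_cast Nat.one_le_iff_ne_zero.2 (NeZero.ne N)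
  have hb : 0 ≤ 1 - 1 / (N : ℝ) ^ (2 * R) := by
    rw [sub_nonneg, div_le_one (by positivity)]
    exact one_le_pow₀ hN1
  have h0 : pr (fun q : (Fin R → Ns n d N) × Pl n d => Cov (Yt q.1 R)) ≤
      pr (fun W : Fin R → Ns n d N => Cov (Yt W R)) := by
    rw [← pr_equiv (Equiv.prodComm (Pl n d) (Fin R → Ns n d N))]
    exact pr_prod_le _ _ (pr_nonneg _) (fun a => le_rfl)
  refine h0.trans ?_
  have h1 : ∀ q : Fin n × Fin n, pr (fun W : Fin R → Ns n d N =>
      ∀ k, Yt W R (Sum.inl q.1) k = true ∨ Yt W R (Sum.inr q.2) k = true) ≤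
      (1 - 1 / (N : ℝ) ^ (2 * R)) ^ d := by
    rintro ⟨i, j⟩
    let e : (Fin d → Fin R → Fin n ⊕ Fin n → Fin N) ≃ (Fin R → Ns n d N) :=
      { toFun := fun u l ρ k => u k l ρ
        invFun := fun W k l ρ => W l ρ k
        left_inv := fun _ => rfl
        right_inv := fun _ => rfl }
    rw [← pr_equiv e]
    have h2 : (fun u => ∀ k, Yt (e u) R (Sum.inl i) k = true ∨ Yt (e u) R (Sum.inr j) k = true) =
        fun u : Fin d → Fin R → Fin n ⊕ Fin n → Fin N => ∀ k,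
          ¬ ∀ l, ∀ ρ, (ρ = Sum.inl i ∨ ρ = Sum.inr j) → u k l ρ = 0 := by
      funext u
      refine propext (forall_congr' fun k => ?_)
      simp only [Yt, decide_eq_true_eq]
      push Not
      constructor
      · rintro (⟨l, _, h⟩ | ⟨l, _, h⟩)
        · exact ⟨l, _, Or.inl rfl, h⟩
        · exact ⟨l, _, Or.inr rfl, h⟩
      · rintro ⟨l, ρ, h3 | h3, h⟩
        · subst h3; exact Or.inl ⟨l, l.isLt, h⟩
        · subst h3; exact Or.inr ⟨l, l.isLt, h⟩
    rw [h2, pr_pi (fun _ (v : Fin R → Fin n ⊕ Fin n → Fin N) =>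
      ¬ ∀ l, ∀ ρ, (ρ = Sum.inl i ∨ ρ = Sum.inr j) → v l ρ = 0)]
    rw [Finset.prod_const, Finset.card_univ, Fintype.card_fin]
    apply pow_le_pow_left₀ (pr_nonneg _)
    rw [pr_not]
    have h3 : pr (fun v : Fin R → Fin n ⊕ Fin n → Fin N =>
        ∀ l, ∀ ρ, (ρ = Sum.inl i ∨ ρ = Sum.inr j) → v l ρ = 0) = 1 / (N : ℝ) ^ (2 * R) := by
      rw [pr_pi (fun _ (v : Fin n ⊕ Fin n → Fin N) =>
        ∀ ρ, (ρ = Sum.inl i ∨ ρ = Sum.inr j) → v ρ = 0)]
      rw [Finset.prod_const, Finset.card_univ, Fintype.card_fin]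
      rw [pr_pi (fun ρ (v : Fin N) => (ρ = Sum.inl i ∨ ρ = Sum.inr j) → v = 0)]
      have h4 : ∀ ρ : Fin n ⊕ Fin n, pr (fun v : Fin N => (ρ = Sum.inl i ∨ ρ = Sum.inr j) → v = 0) =
          if ρ ∈ ({Sum.inl i, Sum.inr j} : Finset (Fin n ⊕ Fin n)) then 1 / (N : ℝ) else 1 := by
        intro ρ
        by_cases h5 : ρ = Sum.inl i ∨ ρ = Sum.inr j
        · have h6 : ρ ∈ ({Sum.inl i, Sum.inr j} : Finset (Fin n ⊕ Fin n)) := by
            simpa using h5
          rw [if_pos h6, pr_eq]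
          simp only [h5, true_imp_iff]
          rw [Finset.filter_eq']
          simp
        · have h6 : ρ ∉ ({Sum.inl i, Sum.inr j} : Finset (Fin n ⊕ Fin n)) := by
            simpa using h5
          rw [if_neg h6, pr_eq]
          simp only [h5, false_imp_iff]
          simp [hN0.ne']
      simp_rw [h4]
      rw [Finset.prod_ite_mem, Finset.univ_inter, Finset.prod_const,
        Finset.card_pair (by simp), ← pow_mul, one_div, one_div, inv_pow]
    rw [h3]
  have h2 : pr (fun W : Fin R → Ns n d N => Cov (Yt W R)) ≤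
      pr (fun W : Fin R → Ns n d N => ∃ q ∈ (univ : Finset (Fin n × Fin n)),
        ∀ k, Yt W R (Sum.inl q.1) k = true ∨ Yt W R (Sum.inr q.2) k = true) := by
    apply pr_mono
    rintro W ⟨i, j, h⟩
    exact ⟨(i, j), Finset.mem_univ _, h⟩
  refine h2.trans ((pr_exists univ _ _ fun q _ => h1 q).trans_eq ?_)
  simp [sq]

/-- The tests: the planted ones, and the noises. -/
def test {n d N R : ℕ} [NeZero N] (e : ℕ) (τ : Fin R × Bool) (q : (Fin R → Ns n d N) × Pl n d) :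
    Inst n (d + e + e) :=
  if τ.2 then inst e (Yt q.1 τ.1 ⊔ pl q.2) else inst e (Yt q.1 (τ.1 + 1))

/-- The bad points for a circuit. -/
def Bad {n d N R e L : ℕ} [NeZero N] (c : Circuit n (d + e + e) (L + 1))
    (q : (Fin R → Ns n d N) × Pl n d) : Prop :=
  (∃ r : Fin R, ∃ F ∈ c.crit ∪ c.outs, F (inst e (Yt q.1 r ⊔ pl q.2)) ∧
    ¬ F (inst e (Yt q.1 (r + 1)))) ∨ Cov (Yt q.1 R)

/-- **Outside the bad points the circuit fails on some test.** -/
lemma fails {n d N R e L : ℕ} [NeZero N] (c : Circuit n (d + e + e) (L + 1))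
    (hc : 2 ^ c.numNot ≤ R) (q : (Fin R → Ns n d N) × Pl n d) (hq : ¬ Bad c q) :
    ∃ τ : Fin R × Bool, ¬ (c.out (test e τ q) ↔ OV (test e τ q)) := by
  by_contra hcon
  push Not at hcon
  unfold Bad at hq
  push Not at hq
  obtain ⟨h1, h2⟩ := hq
  have hR : 0 < R := lt_of_lt_of_le (by positivity) hc
  have yes : ∀ r : Fin R, c.out (inst e (Yt q.1 r ⊔ pl q.2)) := by
    intro r
    have h3 := hcon (r, true)
    simp only [test, if_true] at h3
    exact h3.2 ((ov_inst _).2 (cov_pl _ _))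
  have no : ∀ r : Fin R, ¬ c.out (inst e (Yt q.1 (r + 1))) := by
    intro r h
    have h3 := hcon (r, false)
    simp only [test] at h3
    exact h2 (((ov_inst _).1 (h3.1 h)).mono (Yt_mono q.1 (by omega)))
  have dec : ∀ r : Fin R, c.code (inst e (Yt q.1 (r + 1))) <
      c.code (inst e (Yt q.1 r ⊔ pl q.2)) := fun r =>
    c.code_lt_of _ _ (fun F hF hx => h1 r F hF hx) (yes r) (no r)
  have key : ∀ r : ℕ, (hr : r < R) → c.code (inst e (Yt q.1 (r + 1))) + (r + 1) ≤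
      c.code (inst e (Yt q.1 0 ⊔ pl q.2)) := by
    intro r
    induction r with
    | zero =>
      intro hr
      have := dec ⟨0, hr⟩
      simpa using this
    | succ r ih =>
      intro hr
      have h3 := ih (by omega)
      have h4 := dec ⟨r + 1, hr⟩
      have h5 : c.code (inst e (Yt q.1 (r + 1) ⊔ pl q.2)) ≤ c.code (inst e (Yt q.1 (r + 1))) := by
        apply c.code_le
        intro F hF hx
        obtain ⟨l, s, _, h6, h7⟩ := c.comp_crit F hF
        exact h6.monotone _ h7 (le_sup_left : Yt q.1 (r + 1) ≤ Yt q.1 (r + 1) ⊔ pl q.2) hx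
      simp only at h4
      omega
  have h3 := key (R - 1) (by omega)
  have h4 := c.code_lt (inst e (Yt q.1 0 ⊔ pl q.2))
  omega

/-- The size of the set of the bad points. -/
lemma pr_Bad {n d m N R e L : ℕ} [NeZero N] (hn : 1 ≤ n) (hm : 1 ≤ m) (hN : N = 2 * m) {σ ε : ℝ}
    (hσ0 : 0 ≤ σ) (hσ1 : σ ≤ 1) {M : ℕ} (hε : (1 - σ) ^ M ≤ ε)
    (c : Circuit n (d + e + e) (L + 1)) {s : ℕ} (hs : c.numAnd ≤ s) (hc : 2 ^ c.numNot ≤ R) :
    pr (fun q : (Fin R → Ns n d N) × Pl n d => Bad c q) ≤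
      R * (2 * R * loss m n M s σ ε) + (n : ℝ) ^ 2 * (1 - 1 / (N : ℝ) ^ (2 * R)) ^ d := by
  have hε0 : 0 ≤ ε := le_trans (pow_nonneg (by linarith) M) hε
  have hl0 : 0 ≤ loss m n M s σ ε := by unfold loss; positivity
  unfold Bad
  refine (pr_or _ _).trans (add_le_add ?_ cover)
  have h1 : ∀ r ∈ (univ : Finset (Fin R)), pr (fun q : (Fin R → Ns n d N) × Pl n d =>
      ∃ F ∈ c.crit ∪ c.outs, F (inst e (Yt q.1 r ⊔ pl q.2)) ∧ ¬ F (inst e (Yt q.1 (r + 1)))) ≤
      2 * R * loss m n M s σ ε := by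
    intro r _
    have h2 := pr_exists (c.crit ∪ c.outs) (fun F (q : (Fin R → Ns n d N) × Pl n d) =>
      F (inst e (Yt q.1 r ⊔ pl q.2)) ∧ ¬ F (inst e (Yt q.1 (r + 1)))) (loss m n M s σ ε) (by
        intro F hF
        obtain ⟨l, s1, h3, h4, h5⟩ := c.comp_all F hF
        exact step (N := N) hn hm hN hσ0 hσ1 hε h4 (h3.trans hs) _ h5 r)
    refine h2.trans ?_
    apply mul_le_mul_of_nonneg_right _ hl0
    have h3 := Finset.card_union_le c.crit c.outs
    have h4 := c.card_crit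
    have h5 := c.card_outs
    have h6 : (c.crit ∪ c.outs).card ≤ 2 * R := by omega
    exact_mod_cast h6
  have h2 := pr_exists univ _ _ h1
  rw [Finset.card_univ, Fintype.card_fin] at h2
  refine le_trans (pr_mono ?_) h2
  rintro q ⟨r, F, hF, h⟩
  exact ⟨r, Finset.mem_univ _, F, hF, h⟩

/-- **The average over the random circuits.** -/
theorem average {n d m N R e : ℕ} [NeZero N] (hn : 1 ≤ n) (hm : 1 ≤ m) (hN : N = 2 * m) {σ ε : ℝ}
    (hσ0 : 0 ≤ σ) (hσ1 : σ ≤ 1) {M : ℕ} (hε : (1 - σ) ^ M ≤ ε) (he : n ≤ 2 ^ e) {s : ℕ}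
    {Ω : Type} [Fintype Ω] (w : Ω → ℝ) (hw : ∀ ω, 0 ≤ w ω) (hw1 : ∑ ω, w ω = 1)
    (L : Ω → ℕ) (c : ∀ ω, Circuit n (d + e + e) (L ω + 1)) (hA : ∀ ω, (c ω).numAnd ≤ s)
    (hNt : ∀ ω, 2 ^ (c ω).numNot ≤ R) (γ : ℝ)
    (hcor : ∀ x : Inst n (d + e + e), Valid x →
      1 - γ ≤ ∑ ω with ((c ω).out x ↔ OV x), w ω) :
    1 ≤ R * (2 * R * loss m n M s σ ε) + (n : ℝ) ^ 2 * (1 - 1 / (N : ℝ) ^ (2 * R)) ^ d +
      2 * R * γ := by
  set Z := (Fin R → Ns n d N) × Pl n d with hZ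
  have hn' : Nonempty (Fin n) := ⟨⟨0, hn⟩⟩
  have hZn : Nonempty Z := by
    rw [hZ]
    infer_instance
  have hcZ : (0 : ℝ) < Fintype.card Z := by exact_mod_cast Fintype.card_pos
  set bd := R * (2 * R * loss m n M s σ ε) + (n : ℝ) ^ 2 * (1 - 1 / (N : ℝ) ^ (2 * R)) ^ d with hbd
  -- for every circuit
  have h1 : ∀ ω, 1 ≤ bd + ∑ τ : Fin R × Bool,
      pr (fun q : Z => ¬ ((c ω).out (test e τ q) ↔ OV (test e τ q))) := by
    intro ω
    have h2 : (1 : ℝ) = pr (fun _ : Z => True) := by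
      rw [pr_eq]
      simp [hcZ.ne']
    have h3 : pr (fun _ : Z => True) ≤ pr (fun q : Z => Bad (c ω) q ∨
        ∃ τ ∈ (univ : Finset (Fin R × Bool)), ¬ ((c ω).out (test e τ q) ↔ OV (test e τ q))) := by
      apply pr_mono
      intro q _
      by_cases h4 : Bad (c ω) q
      · exact Or.inl h4
      · obtain ⟨τ, hτ⟩ := fails (c ω) (hNt ω) q h4
        exact Or.inr ⟨τ, Finset.mem_univ _, hτ⟩
    have h4 := pr_or (fun q : Z => Bad (c ω) q)
      (fun q => ∃ τ ∈ (univ : Finset (Fin R × Bool)), ¬ ((c ω).out (test e τ q) ↔ OV (test e τ q)))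
    have h5 := pr_Bad (N := N) hn hm hN hσ0 hσ1 hε (c ω) (hA ω) (hNt ω)
    have h6 : pr (fun q : Z => ∃ τ ∈ (univ : Finset (Fin R × Bool)),
        ¬ ((c ω).out (test e τ q) ↔ OV (test e τ q))) ≤ ∑ τ : Fin R × Bool,
        pr (fun q : Z => ¬ ((c ω).out (test e τ q) ↔ OV (test e τ q))) := by
      have h7 : ∀ (S : Finset (Fin R × Bool)) (p : Fin R × Bool → Z → Prop),
          pr (fun q : Z => ∃ τ ∈ S, p τ q) ≤ ∑ τ ∈ S, pr (p τ) := by
        intro S p
        induction S using Finset.induction_on with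
        | empty => simp [pr]
        | insert a S ha ih =>
          rw [Finset.sum_insert ha]
          have h8 := pr_or (p a) (fun q => ∃ τ ∈ S, p τ q)
          have h9 : pr (fun q : Z => ∃ τ ∈ insert a S, p τ q) ≤
              pr (fun q => p a q ∨ ∃ τ ∈ S, p τ q) := by
            apply pr_mono
            rintro q ⟨τ, hτ, hp⟩
            rcases Finset.mem_insert.1 hτ with rfl | hτ
            · exact Or.inl hp
            · exact Or.inr ⟨τ, hτ, hp⟩
          linarith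
      exact h7 univ _
    linarith
  -- for every test
  have h2 : ∀ τ : Fin R × Bool, ∑ ω, w ω *
      pr (fun q : Z => ¬ ((c ω).out (test e τ q) ↔ OV (test e τ q))) ≤ γ := by
    intro τ
    have h3 : ∀ q : Z, ∑ ω, w ω *
        (if ¬ ((c ω).out (test e τ q) ↔ OV (test e τ q)) then (1 : ℝ) else 0) ≤ γ := by
      intro q
      have hv : Valid (test e τ q) := by
        unfold test
        split_ifs
        · exact inst_valid he _
        · exact inst_valid he _
      have h4 := hcor _ hv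
      rw [Finset.sum_filter] at h4
      have h5 : ∑ ω, w ω * (if ¬ ((c ω).out (test e τ q) ↔ OV (test e τ q)) then (1 : ℝ) else 0) =
          ∑ ω, w ω - ∑ ω, (if ((c ω).out (test e τ q) ↔ OV (test e τ q)) then w ω else 0) := by
        rw [← Finset.sum_sub_distrib]
        refine Finset.sum_congr rfl fun ω _ => ?_
        by_cases h6 : ((c ω).out (test e τ q) ↔ OV (test e τ q)) <;> simp [h6]
      rw [h5, hw1]
      linarith
    have h4 : ∑ ω, w ω * pr (fun q : Z => ¬ ((c ω).out (test e τ q) ↔ OV (test e τ q))) =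
        (∑ q : Z, ∑ ω, w ω *
          (if ¬ ((c ω).out (test e τ q) ↔ OV (test e τ q)) then (1 : ℝ) else 0)) /
          Fintype.card Z := by
      rw [Finset.sum_comm, Finset.sum_div]
      refine Finset.sum_congr rfl fun ω _ => ?_
      rw [pr_eq_sum, ← Finset.mul_sum, mul_div_assoc]
      congr!
    rw [h4, div_le_iff₀ hcZ]
    calc _ ≤ ∑ _q : Z, γ := Finset.sum_le_sum fun q _ => h3 q
      _ = γ * Fintype.card Z := by simp [mul_comm]
  -- together
  have h3 : (1 : ℝ) ≤ bd + ∑ τ : Fin R × Bool, ∑ ω, w ω *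
      pr (fun q : Z => ¬ ((c ω).out (test e τ q) ↔ OV (test e τ q))) := by
    rw [Finset.sum_comm]
    calc (1 : ℝ) = ∑ ω, w ω * 1 := by simp [hw1]
      _ ≤ ∑ ω, w ω * (bd + ∑ τ : Fin R × Bool,
          pr (fun q : Z => ¬ ((c ω).out (test e τ q) ↔ OV (test e τ q)))) :=
        Finset.sum_le_sum fun ω _ => mul_le_mul_of_nonneg_left (h1 ω) (hw ω)
      _ = _ := by
        simp_rw [mul_add, Finset.sum_add_distrib, ← Finset.sum_mul, hw1, Finset.mul_sum, one_mul]
  have h4 : ∑ τ : Fin R × Bool, ∑ ω, w ω *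
      pr (fun q : Z => ¬ ((c ω).out (test e τ q) ↔ OV (test e τ q))) ≤ 2 * R * γ := by
    calc _ ≤ ∑ _τ : Fin R × Bool, γ := Finset.sum_le_sum fun τ _ => h2 τ
      _ = 2 * R * γ := by
        rw [Finset.sum_const, Finset.card_univ, Fintype.card_prod, Fintype.card_fin,
          Fintype.card_bool, nsmul_eq_mul]
        push_cast
        ring
  linarith

end Pool.Agent.V8H11.OVC
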