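import Pool.Agent.V8H11.OVC.Pr

set_option autoImplicit false

/-!
# The dichotomy for circuits without negations

The inputs are tables `x : Fin n ⊕ Fin n → Fin d → Bool`.  `Comp l s`: the functions of the list `l`
are computed by a straight-line program with monotone functions of single rows, disjunctions of any
number of functions, and `s` conjunctions of two functions.
-/

namespace Pool.Agent.V8H11.OVC

open Finset
open scoped Classical

/-- Tables with `n + n` rows. -/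
abbrev Tab (n d : ℕ) := Fin n ⊕ Fin n → Fin d → Bool

/-- The functions of the list are computed by a program with `s` conjunctions. -/
inductive Comp (n d : ℕ) : List (Tab n d → Prop) → ℕ → Prop
  | nil : Comp n d [] 0
  | row {l s} (h : Comp n d l s) (r : Fin n ⊕ Fin n) (φ : (Fin d → Bool) → Prop) (hφ : Monotone φ) :
      Comp n d ((fun x => φ (x r)) :: l) s
  | const {l s} (h : Comp n d l s) (p : Prop) : Comp n d ((fun _ => p) :: l) s
  | or {l s} (h : Comp n d l s) (S : Set (Tab n d → Prop)) (hS : ∀ F ∈ S, F ∈ l) :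
      Comp n d ((fun x => ∃ F ∈ S, F x) :: l) s
  | and {l s} (h : Comp n d l s) (F G : Tab n d → Prop) (hF : F ∈ l) (hG : G ∈ l) :
      Comp n d ((fun x => F x ∧ G x) :: l) (s + 1)

/-- The functions computed are monotone. -/
lemma Comp.monotone {n d : ℕ} {l : List (Tab n d → Prop)} {s : ℕ} (h : Comp n d l s) :
    ∀ F ∈ l, Monotone F := by
  induction h with
  | nil => simp
  | row h r φ hφ ih =>
    intro F hF
    rcases List.mem_cons.1 hF with rfl | hF
    · exact fun x y hxy => hφ (hxy r)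
    · exact ih F hF
  | const h p ih =>
    intro F hF
    rcases List.mem_cons.1 hF with rfl | hF
    · exact fun x y hxy => le_rfl
    · exact ih F hF
  | or h S hS ih =>
    intro F hF
    rcases List.mem_cons.1 hF with rfl | hF
    · rintro x y hxy ⟨G, hG, hx⟩
      exact ⟨G, hG, ih G (hS G hG) hxy hx⟩
    · exact ih F hF
  | and h F G hF hG ih =>
    intro F' hF'
    rcases List.mem_cons.1 hF' with rfl | hF'
    · rintro x y hxy ⟨h1, h2⟩
      exact ⟨ih F hF hxy h1, ih G hG hxy h2⟩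
    · exact ih F' hF'

/-- A planted pair of complementary rows. -/
def pl {n d : ℕ} (x : Fin n × Fin n × (Fin d → Bool)) : Tab n d :=
  Sum.elim (fun i => if i = x.1 then x.2.2 else ⊥) (fun j => if j = x.2.1 then x.2.2ᶜ else ⊥)

/-- The table of a noise. -/
def ns {n d N : ℕ} [NeZero N] (w : Fin n ⊕ Fin n → Fin d → Fin N) : Tab n d := fun r => bits (w r)

/-- The type of the planted pairs. -/
abbrev Pl (n d : ℕ) := Fin n × Fin n × (Fin d → Bool)

/-- The type of the noises. -/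
abbrev Ns (n d N : ℕ) := Fin n ⊕ Fin n → Fin d → Fin N

/-- `g` approximates `F`, up to the exceptional planted pairs `Bp`, the exceptional noises `Bn` and
the pairs `Q`. -/
structure Inv {n d N : ℕ} [NeZero N] (z : Tab n d) (Bp : Pl n d → Prop) (Bn : Ns n d N → Prop)
    (Q : Fin n × Fin n → Prop) (F : Tab n d → Prop) (g : Fin n ⊕ Fin n → (Fin d → Bool) → Prop) :
    Prop where
  mono : ∀ r, Monotone (g r)
  pos : ∀ x : Pl n d, ¬ Bp x → F (z ⊔ pl x) →
    g (Sum.inl x.1) x.2.2 ∨ g (Sum.inr x.2.1) x.2.2ᶜ ∨ Q (x.1, x.2.1)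
  neg : ∀ w : Ns n d N, ¬ Bn w → (∃ r, g r (ns w r)) → F (z ⊔ ns w)

lemma Inv.imp {n d N : ℕ} [NeZero N] {z : Tab n d} {Bp Bp' : Pl n d → Prop} {Bn Bn' : Ns n d N → Prop}
    {Q Q' : Fin n × Fin n → Prop} {F : Tab n d → Prop} {g : Fin n ⊕ Fin n → (Fin d → Bool) → Prop}
    (h : Inv z Bp Bn Q F g) (h1 : ∀ x, Bp x → Bp' x) (h2 : ∀ x, Bn x → Bn' x)
    (h3 : ∀ x, Q x → Q' x) : Inv z Bp' Bn' Q' F g :=
  ⟨h.mono, fun x hx hF => by
    rcases h.pos x (fun h' => hx (h1 x h')) hF with h' | h' | h'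
    · exact Or.inl h'
    · exact Or.inr (Or.inl h')
    · exact Or.inr (Or.inr (h3 _ h')),
    fun w hw hr => h.neg w (fun h' => hw (h2 w h')) hr⟩

/-- The rows on which `g` accepts many random rows. -/
noncomputable def heavy {n d : ℕ} (τ : ℝ) (g : Fin n ⊕ Fin n → (Fin d → Bool) → Prop) :
    Finset (Fin n ⊕ Fin n) := univ.filter fun r => τ ≤ pr (g r)

/-- Many heavy rows: almost all noises are accepted. -/
lemma noise_heavy {n d m N : ℕ} [NeZero N] (hm : 1 ≤ m) (hN : N = 2 * m) {σ ε : ℝ} (hσ0 : 0 ≤ σ)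
    (hσ1 : σ ≤ 1) {M : ℕ} (hε : (1 - σ) ^ M ≤ ε)
    {g : Fin n ⊕ Fin n → (Fin d → Bool) → Prop} (hg : ∀ r, Monotone (g r))
    (hM : M ≤ (heavy (σ ^ m) g).card) :
    pr (fun w : Ns n d N => ¬ ∃ r, g r (ns w r)) ≤ ε := by
  have h1 : pr (fun w : Ns n d N => ¬ ∃ r, g r (ns w r)) =
      ∏ r, pr (fun v : Fin d → Fin N => ¬ g r (bits v)) := by
    have hh : (fun w : Ns n d N => ¬ ∃ r, g r (ns w r)) =
        fun w : Ns n d N => ∀ r, ¬ g r (bits (w r)) := by
      funext w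
      exact propext not_exists
    rw [hh]
    exact pr_pi (fun r (v : Fin d → Fin N) => ¬ g r (bits v))
  have h2 : ∀ r, pr (fun v : Fin d → Fin N => ¬ g r (bits v)) ≤
      if r ∈ heavy (σ ^ m) g then 1 - σ else 1 := by
    intro r
    split_ifs with hr
    · rw [pr_not]
      have h3 : σ ^ m ≤ pr (g r) := (Finset.mem_filter.1 hr).2
      have h4 := h3.trans (dens m hm N hN d (g r) (hg r))
      have h5 : σ ≤ pr fun w : Fin d → Fin N => g r (bits w) := by
        by_contra h6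
        push Not at h6
        exact absurd h4 (not_le.2 (pow_lt_pow_left₀ h6 (pr_nonneg _) (by omega)))
      linarith
    · exact pr_le_one _
  rw [h1]
  calc ∏ r, pr (fun v : Fin d → Fin N => ¬ g r (bits v))
      ≤ ∏ r, (if r ∈ heavy (σ ^ m) g then 1 - σ else 1) :=
        Finset.prod_le_prod (fun r _ => pr_nonneg _) (fun r _ => h2 r)
    _ = (1 - σ) ^ (heavy (σ ^ m) g).card := by
        rw [Finset.prod_ite_mem]; simp
    _ ≤ (1 - σ) ^ M := pow_le_pow_of_le_one (by linarith) (by linarith) hM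
    _ ≤ ε := hε

/-- The planted pairs whose row of the first kind is accepted by a light function. -/
lemma light_inl {n d : ℕ} {τ : ℝ} (hτ : 0 ≤ τ) (g : Fin n ⊕ Fin n → (Fin d → Bool) → Prop) :
    pr (fun x : Pl n d => g (Sum.inl x.1) x.2.2 ∧ Sum.inl x.1 ∉ heavy τ g) ≤ τ := by
  apply pr_prod_le _ _ hτ
  intro i
  apply pr_prod_le _ _ hτ
  intro j
  by_cases h : Sum.inl i ∈ heavy τ g
  · simp [h, pr, hτ]
  · have h1 : pr (g (Sum.inl i)) < τ := by
      simpa [heavy] using h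
    simp only [h, not_false_iff, and_true]
    exact h1.le

lemma pr_compl {d : ℕ} (g : (Fin d → Bool) → Prop) : pr (fun x => g xᶜ) = pr g :=
  pr_equiv (Equiv.ofBijective (fun x : Fin d → Bool => xᶜ) (compl_involutive.bijective)) g

lemma light_inr {n d : ℕ} {τ : ℝ} (hτ : 0 ≤ τ) (g : Fin n ⊕ Fin n → (Fin d → Bool) → Prop) :
    pr (fun x : Pl n d => g (Sum.inr x.2.1) x.2.2ᶜ ∧ Sum.inr x.2.1 ∉ heavy τ g) ≤ τ := by
  apply pr_prod_le _ _ hτ
  intro i
  apply pr_prod_le _ _ hτ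
  intro j
  by_cases h : Sum.inr j ∈ heavy τ g
  · simp [h, pr, hτ]
  · have h1 : pr (g (Sum.inr j)) < τ := by
      simpa [heavy] using h
    simp only [h, not_false_iff, and_true]
    rw [pr_compl]
    exact h1.le

/-- The exceptional planted pairs of one function. -/
def bad {n d : ℕ} (τ : ℝ) (g : Fin n ⊕ Fin n → (Fin d → Bool) → Prop) (x : Pl n d) : Prop :=
  (g (Sum.inl x.1) x.2.2 ∧ Sum.inl x.1 ∉ heavy τ g) ∨
    (g (Sum.inr x.2.1) x.2.2ᶜ ∧ Sum.inr x.2.1 ∉ heavy τ g)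

lemma pr_bad {n d : ℕ} {τ : ℝ} (hτ : 0 ≤ τ) (g : Fin n ⊕ Fin n → (Fin d → Bool) → Prop) :
    pr (bad τ g) ≤ 2 * τ := by
  have := pr_or (fun x : Pl n d => g (Sum.inl x.1) x.2.2 ∧ Sum.inl x.1 ∉ heavy τ g)
    (fun x : Pl n d => g (Sum.inr x.2.1) x.2.2ᶜ ∧ Sum.inr x.2.1 ∉ heavy τ g)
  have h1 := light_inl hτ g
  have h2 := light_inr hτ g
  unfold bad
  linarith

lemma card_pairs {n : ℕ} (A B : Finset (Fin n ⊕ Fin n)) :
    (univ.filter fun q : Fin n × Fin n => Sum.inl q.1 ∈ A ∧ Sum.inr q.2 ∈ B).card ≤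
      A.card * B.card := by
  rw [← Finset.card_product]
  apply Finset.card_le_card_of_injOn (fun q : Fin n × Fin n => (Sum.inl q.1, Sum.inr q.2))
  · intro q hq
    simpa using hq
  · rintro ⟨a, b⟩ _ ⟨a', b'⟩ _ h
    simpa using h

/-- **Approximation.** -/
theorem approx {n d m N : ℕ} [NeZero N] (hm : 1 ≤ m) (hN : N = 2 * m) {σ ε : ℝ} (hσ0 : 0 ≤ σ)
    (hσ1 : σ ≤ 1) {M : ℕ} (hε : (1 - σ) ^ M ≤ ε) (z : Tab n d) {l : List (Tab n d → Prop)} {s : ℕ}
    (h : Comp n d l s) :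
    ∃ (Bp : Pl n d → Prop) (Bn : Ns n d N → Prop) (Q : Finset (Fin n × Fin n)),
      pr Bp ≤ s * (4 * σ ^ m) ∧ pr Bn ≤ s * ε ∧ Q.card ≤ s * (2 * M ^ 2) ∧
      ∀ F ∈ l, ∃ g, Inv z Bp Bn (fun q => q ∈ Q) F g := by
  have hε0 : 0 ≤ ε := le_trans (pow_nonneg (by linarith) M) hε
  have hτ : 0 ≤ σ ^ m := pow_nonneg hσ0 m
  induction h with
  | nil =>
    refine ⟨fun _ => False, fun _ => False, ∅, by simp [pr], by simp [pr], by simp, by simp⟩
  | @row l s h r φ hφ ih =>
    obtain ⟨Bp, Bn, Q, h1, h2, h3, h4⟩ := ih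
    refine ⟨Bp, Bn, Q, h1, h2, h3, ?_⟩
    intro F hF
    rcases List.mem_cons.1 hF with rfl | hF
    · by_cases hz : φ (z r)
      · refine ⟨fun _ _ => True, fun _ _ _ _ => le_rfl, fun _ _ _ => Or.inl trivial, ?_⟩
        intro w _ _
        exact hφ (le_sup_left : z r ≤ z r ⊔ ns w r) hz
      · refine ⟨fun r' x => r' = r ∧ φ (z r ⊔ x), ?_, ?_, ?_⟩
        · rintro r' x y hxy ⟨h5, h6⟩
          exact ⟨h5, hφ (sup_le_sup_left hxy _) h6⟩
        · intro x _ hx
          simp only [Pi.sup_apply] at hx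
          rcases r with i | j
          · by_cases hi : i = x.1
            · left
              refine ⟨by rw [hi], ?_⟩
              simpa [pl, hi] using hx
            · exfalso
              simp [pl, hi] at hx
              exact hz hx
          · by_cases hj : j = x.2.1
            · right; left
              refine ⟨by rw [hj], ?_⟩
              simpa [pl, hj] using hx
            · exfalso
              simp [pl, hj] at hx
              exact hz hx
        · rintro w _ ⟨r', rfl, h6⟩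
          exact h6
    · exact h4 F hF
  | @const l s h p ih =>
    obtain ⟨Bp, Bn, Q, h1, h2, h3, h4⟩ := ih
    refine ⟨Bp, Bn, Q, h1, h2, h3, ?_⟩
    intro F hF
    rcases List.mem_cons.1 hF with rfl | hF
    · exact ⟨fun _ _ => p, fun _ _ _ _ => le_rfl, fun _ _ hp => Or.inl hp, fun _ _ ⟨_, hp⟩ => hp⟩
    · exact h4 F hF
  | @or l s h S hS ih =>
    obtain ⟨Bp, Bn, Q, h1, h2, h3, h4⟩ := ih
    refine ⟨Bp, Bn, Q, h1, h2, h3, ?_⟩
    intro F hF
    rcases List.mem_cons.1 hF with rfl | hF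
    · choose! g hg using h4
      refine ⟨fun r x => ∃ F ∈ S, g F r x, ?_, ?_, ?_⟩
      · rintro r x y hxy ⟨F, hF, h5⟩
        exact ⟨F, hF, (hg F (hS F hF)).mono r hxy h5⟩
      · rintro x hx ⟨F, hF, h5⟩
        rcases (hg F (hS F hF)).pos x hx h5 with h6 | h6 | h6
        · exact Or.inl ⟨F, hF, h6⟩
        · exact Or.inr (Or.inl ⟨F, hF, h6⟩)
        · exact Or.inr (Or.inr h6)
      · rintro w hw ⟨r, F, hF, h5⟩
        exact ⟨F, hF, (hg F (hS F hF)).neg w hw ⟨r, h5⟩⟩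
    · exact h4 F hF
  | @and l s h F G hF hG ih =>
    obtain ⟨Bp, Bn, Q, h1, h2, h3, h4⟩ := ih
    obtain ⟨g1, i1⟩ := h4 F hF
    obtain ⟨g2, i2⟩ := h4 G hG
    -- the case in which one of the two functions has many heavy rows
    have key : ∀ (F G : Tab n d → Prop) (g1 g2 : Fin n ⊕ Fin n → (Fin d → Bool) → Prop),
        Inv z Bp Bn (fun q => q ∈ Q) F g1 → Inv z Bp Bn (fun q => q ∈ Q) G g2 →
        M ≤ (heavy (σ ^ m) g1).card →
        ∃ (Bp' : Pl n d → Prop) (Bn' : Ns n d N → Prop) (Q' : Finset (Fin n × Fin n)),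
          pr Bp' ≤ ((s + 1 : ℕ) : ℝ) * (4 * σ ^ m) ∧ pr Bn' ≤ ((s + 1 : ℕ) : ℝ) * ε ∧
          Q'.card ≤ (s + 1) * (2 * M ^ 2) ∧ (∀ x, Bp x → Bp' x) ∧ (∀ x, Bn x → Bn' x) ∧
          (∀ q, q ∈ Q → q ∈ Q') ∧
          ∃ g, Inv z Bp' Bn' (fun q => q ∈ Q') (fun x => F x ∧ G x) g := by
      intro F G g1 g2 i1 i2 hM
      have h5 := noise_heavy (N := N) hm hN hσ0 hσ1 hε i1.mono hM
      refine ⟨Bp, fun w => Bn w ∨ ¬ ∃ r, g1 r (ns w r), Q, ?_, ?_, ?_, fun _ h => h,
        fun _ h => Or.inl h, fun _ h => h, g2, i2.mono, ?_, ?_⟩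
      · push_cast
        nlinarith
      · have := pr_or Bn (fun w : Ns n d N => ¬ ∃ r, g1 r (ns w r))
        push_cast
        linarith
      · nlinarith
      · intro x hx hFG
        exact i2.pos x hx hFG.2
      · intro w hw hr
        push Not at hw
        exact ⟨i1.neg w hw.1 hw.2, i2.neg w hw.1 hr⟩
    have main : ∃ (Bp' : Pl n d → Prop) (Bn' : Ns n d N → Prop) (Q' : Finset (Fin n × Fin n)),
          pr Bp' ≤ ((s + 1 : ℕ) : ℝ) * (4 * σ ^ m) ∧ pr Bn' ≤ ((s + 1 : ℕ) : ℝ) * ε ∧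
          Q'.card ≤ (s + 1) * (2 * M ^ 2) ∧ (∀ x, Bp x → Bp' x) ∧ (∀ x, Bn x → Bn' x) ∧
          (∀ q, q ∈ Q → q ∈ Q') ∧
          ∃ g, Inv z Bp' Bn' (fun q => q ∈ Q') (fun x => F x ∧ G x) g := by
      by_cases hM1 : M ≤ (heavy (σ ^ m) g1).card
      · exact key F G g1 g2 i1 i2 hM1
      by_cases hM2 : M ≤ (heavy (σ ^ m) g2).card
      · obtain ⟨Bp', Bn', Q', a1, a2, a3, a4, a5, a6, g, a7⟩ := key G F g2 g1 i2 i1 hM2
        refine ⟨Bp', Bn', Q', a1, a2, a3, a4, a5, a6, g, ?_⟩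
        have : (fun x => F x ∧ G x) = fun x => G x ∧ F x := by ext x; exact and_comm
        rw [this]
        exact a7
      push Not at hM1 hM2
      set τ := σ ^ m with hτd
      refine ⟨fun x => Bp x ∨ (bad τ g1 x ∨ bad τ g2 x), Bn,
        Q ∪ ((univ.filter fun q : Fin n × Fin n => Sum.inl q.1 ∈ heavy τ g1 ∧
          Sum.inr q.2 ∈ heavy τ g2) ∪ (univ.filter fun q : Fin n × Fin n =>
          Sum.inl q.1 ∈ heavy τ g2 ∧ Sum.inr q.2 ∈ heavy τ g1)), ?_, ?_, ?_, fun _ h => Or.inl h,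
        fun _ h => h, fun q hq => Finset.mem_union_left _ hq,
        fun r x => g1 r x ∧ g2 r x, ?_, ?_, ?_⟩
      · have b1 := pr_or Bp (fun x => bad τ g1 x ∨ bad τ g2 x)
        have b2 := pr_or (bad τ g1) (bad τ g2)
        have b3 := pr_bad hτ g1
        have b4 := pr_bad hτ g2
        push_cast
        linarith
      · push_cast
        linarith
      · refine (Finset.card_union_le _ _).trans ?_
        have c1 := Finset.card_union_le (univ.filter fun q : Fin n × Fin n =>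
          Sum.inl q.1 ∈ heavy τ g1 ∧ Sum.inr q.2 ∈ heavy τ g2)
          (univ.filter fun q : Fin n × Fin n => Sum.inl q.1 ∈ heavy τ g2 ∧
            Sum.inr q.2 ∈ heavy τ g1)
        have c2 := card_pairs (heavy τ g1) (heavy τ g2)
        have c3 := card_pairs (heavy τ g2) (heavy τ g1)
        have c4 : (heavy τ g1).card * (heavy τ g2).card ≤ M * M :=
          Nat.mul_le_mul hM1.le hM2.le
        have c5 : (heavy τ g2).card * (heavy τ g1).card ≤ M * M :=
          Nat.mul_le_mul hM2.le hM1.le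
        nlinarith
      · rintro r x y hxy ⟨e1, e2⟩
        exact ⟨i1.mono r hxy e1, i2.mono r hxy e2⟩
      · rintro x hx ⟨e1, e2⟩
        push Not at hx
        obtain ⟨k1, k2, k3⟩ := hx
        simp only [bad, not_or, not_and, not_not] at k2 k3
        rcases i1.pos x k1 e1 with f1 | f1 | f1
        · rcases i2.pos x k1 e2 with f2 | f2 | f2
          · exact Or.inl ⟨f1, f2⟩
          · right; right
            apply Finset.mem_union_right
            apply Finset.mem_union_left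
            exact Finset.mem_filter.2 ⟨Finset.mem_univ _, k2.1 f1, k3.2 f2⟩
          · exact Or.inr (Or.inr (Finset.mem_union_left _ f2))
        · rcases i2.pos x k1 e2 with f2 | f2 | f2
          · right; right
            apply Finset.mem_union_right
            apply Finset.mem_union_right
            exact Finset.mem_filter.2 ⟨Finset.mem_univ _, k3.1 f2, k2.2 f1⟩
          · exact Or.inr (Or.inl ⟨f1, f2⟩)
          · exact Or.inr (Or.inr (Finset.mem_union_left _ f2))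
        · exact Or.inr (Or.inr (Finset.mem_union_left _ f1))
      · rintro w hw ⟨r, e1, e2⟩
        exact ⟨i1.neg w hw ⟨r, e1⟩, i2.neg w hw ⟨r, e2⟩⟩
    obtain ⟨Bp', Bn', Q', a1, a2, a3, a4, a5, a6, g, a7⟩ := main
    refine ⟨Bp', Bn', Q', a1, a2, a3, ?_⟩
    intro F' hF'
    rcases List.mem_cons.1 hF' with rfl | hF'
    · exact ⟨g, a7⟩
    · obtain ⟨g', hg'⟩ := h4 F' hF'
      exact ⟨g', hg'.imp a4 a5 a6⟩

/-- The planted pairs with a heavy row. -/
lemma pr_heavy {n d : ℕ} (hn : 1 ≤ n) {M : ℕ} (A : Finset (Fin n ⊕ Fin n)) (hA : A.card ≤ M) :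
    pr (fun x : Pl n d => Sum.inl x.1 ∈ A ∨ Sum.inr x.2.1 ∈ A) ≤ (M : ℝ) / n := by
  have hn0 : (0 : ℝ) < n := by exact_mod_cast hn
  have hn1 : n ≠ 0 := by omega
  have h1 : pr (fun x : Pl n d => Sum.inl x.1 ∈ A) =
      ((univ.filter fun i : Fin n => Sum.inl i ∈ A).card : ℝ) / n := by
    rw [pr_prod]
    have : ∀ a : Fin n, pr (fun _ : Fin n × (Fin d → Bool) => Sum.inl a ∈ A) =
        if Sum.inl a ∈ A then 1 else 0 := by
      intro a
      by_cases h : Sum.inl a ∈ A <;> simp [pr, h, hn1]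
    simp_rw [this]
    rw [Finset.sum_boole, Fintype.card_fin]
  have h2 : pr (fun x : Pl n d => Sum.inr x.2.1 ∈ A) =
      ((univ.filter fun i : Fin n => Sum.inr i ∈ A).card : ℝ) / n := by
    rw [pr_prod]
    have h3 : pr (fun x : Fin n × (Fin d → Bool) => Sum.inr x.1 ∈ A) =
        ((univ.filter fun i : Fin n => Sum.inr i ∈ A).card : ℝ) / n := by
      rw [pr_prod]
      have : ∀ a : Fin n, pr (fun _ : (Fin d → Bool) => Sum.inr a ∈ A) =
          if Sum.inr a ∈ A then 1 else 0 := by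
        intro a
        by_cases h : Sum.inr a ∈ A <;> simp [pr, h]
      simp_rw [this]
      rw [Finset.sum_boole, Fintype.card_fin]
    simp only [h3, Finset.sum_const, Finset.card_univ, Fintype.card_fin, nsmul_eq_mul]
    field_simp
  have h4 := pr_or (fun x : Pl n d => Sum.inl x.1 ∈ A) (fun x : Pl n d => Sum.inr x.2.1 ∈ A)
  rw [h1, h2, ← add_div] at h4
  refine h4.trans ?_
  gcongr
  have h5 : (univ.filter fun i : Fin n => Sum.inl i ∈ A).card +
      (univ.filter fun i : Fin n => Sum.inr i ∈ A).card ≤ A.card := by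
    have h6 : ((univ.filter fun i : Fin n => (Sum.inl i : Fin n ⊕ Fin n) ∈ A).disjSum
        (univ.filter fun i : Fin n => (Sum.inr i : Fin n ⊕ Fin n) ∈ A)) ⊆ A := by
      intro x hx
      rcases x with i | i <;> simpa using hx
    have h7 := Finset.card_le_card h6
    rwa [Finset.card_disjSum] at h7
  exact_mod_cast h5.trans hA

lemma pr_pairs {n d : ℕ} (Q : Finset (Fin n × Fin n)) :
    pr (fun x : Pl n d => (x.1, x.2.1) ∈ Q) = (Q.card : ℝ) / n ^ 2 := by
  have h1 := pr_equiv (Equiv.prodAssoc (Fin n) (Fin n) (Fin d → Bool))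
    (fun x : Pl n d => (x.1, x.2.1) ∈ Q)
  rw [← h1, pr_prod]
  have : ∀ a : Fin n × Fin n, pr (fun b : Fin d → Bool =>
      ((Equiv.prodAssoc (Fin n) (Fin n) (Fin d → Bool) (a, b)).1,
        (Equiv.prodAssoc (Fin n) (Fin n) (Fin d → Bool) (a, b)).2.1) ∈ Q) =
      if a ∈ Q then 1 else 0 := by
    intro a
    by_cases h : a ∈ Q <;> simp [pr, h]
  simp_rw [this]
  rw [Finset.sum_boole]
  simp [sq]

/-- The loss in the dichotomy. -/
noncomputable def loss (m n M s : ℕ) (σ ε : ℝ) : ℝ :=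
  (s + 1) * ε + (4 * s + 2) * σ ^ m + (M : ℝ) / n + s * (2 * M ^ 2) / n ^ 2

lemma loss_mono {m n M s s' : ℕ} {σ ε : ℝ} (hσ0 : 0 ≤ σ) (hε : 0 ≤ ε) (h : s ≤ s') :
    loss m n M s σ ε ≤ loss m n M s' σ ε := by
  have h1 : (s : ℝ) ≤ s' := by exact_mod_cast h
  unfold loss
  gcongr

/-- **The dichotomy.** A function computed without negations does not accept a random planted pair
and reject the random noise at the same time. -/
theorem dichotomy {n d m N : ℕ} [NeZero N] (hn : 1 ≤ n) (hm : 1 ≤ m) (hN : N = 2 * m) {σ ε : ℝ}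
    (hσ0 : 0 ≤ σ) (hσ1 : σ ≤ 1) {M : ℕ} (hε : (1 - σ) ^ M ≤ ε) (z : Tab n d)
    {l : List (Tab n d → Prop)} {s : ℕ} (h : Comp n d l s) (F : Tab n d → Prop) (hF : F ∈ l) :
    pr (fun q : Ns n d N × Pl n d => F (z ⊔ pl q.2) ∧ ¬ F (z ⊔ ns q.1)) ≤
      loss m n M s σ ε := by
  have hε0 : 0 ≤ ε := le_trans (pow_nonneg (by linarith) M) hε
  have hτ : 0 ≤ σ ^ m := pow_nonneg hσ0 m
  obtain ⟨Bp, Bn, Q, h1, h2, h3, h4⟩ := approx (N := N) hm hN hσ0 hσ1 hε z h
  obtain ⟨g, hg⟩ := h4 F hF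
  by_cases hM : M ≤ (heavy (σ ^ m) g).card
  · have h5 := noise_heavy (N := N) hm hN hσ0 hσ1 hε hg.mono hM
    have h6 : pr (fun w : Ns n d N => ¬ F (z ⊔ ns w)) ≤ (s + 1) * ε := by
      have h7 : pr (fun w : Ns n d N => ¬ F (z ⊔ ns w)) ≤
          pr (fun w => Bn w ∨ ¬ ∃ r, g r (ns w r)) := by
        apply pr_mono
        intro w hw
        by_contra h8
        push Not at h8
        exact hw (hg.neg w h8.1 h8.2)
      have h9 := pr_or Bn (fun w : Ns n d N => ¬ ∃ r, g r (ns w r))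
      linarith
    have h8 : pr (fun q : Ns n d N × Pl n d => F (z ⊔ pl q.2) ∧ ¬ F (z ⊔ ns q.1)) ≤
        (s + 1) * ε := by
      have h9 := pr_equiv (Equiv.prodComm (Pl n d) (Ns n d N))
        (fun q : Ns n d N × Pl n d => F (z ⊔ pl q.2) ∧ ¬ F (z ⊔ ns q.1))
      rw [← h9]
      apply pr_prod_le _ _ (by positivity)
      intro x
      refine le_trans (pr_mono ?_) h6
      rintro w ⟨_, h10⟩
      exact h10
    refine h8.trans ?_
    unfold loss
    have : 0 ≤ (4 * (s : ℝ) + 2) * σ ^ m + (M : ℝ) / n + s * (2 * M ^ 2) / n ^ 2 := by positivity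
    linarith
  · push Not at hM
    have h5 : pr (fun x : Pl n d => F (z ⊔ pl x)) ≤
        (4 * s + 2) * σ ^ m + (M : ℝ) / n + s * (2 * M ^ 2) / n ^ 2 := by
      have h6 : pr (fun x : Pl n d => F (z ⊔ pl x)) ≤
          pr (fun x : Pl n d => (Bp x ∨ bad (σ ^ m) g x) ∨
            ((Sum.inl x.1 ∈ heavy (σ ^ m) g ∨ Sum.inr x.2.1 ∈ heavy (σ ^ m) g) ∨
              (x.1, x.2.1) ∈ Q)) := by
        apply pr_mono
        intro x hx
        by_contra h7
        push Not at h7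
        obtain ⟨⟨k1, k2⟩, ⟨k3, k4⟩, k5⟩ := h7
        rcases hg.pos x k1 hx with f | f | f
        · exact k2 (Or.inl ⟨f, k3⟩)
        · exact k2 (Or.inr ⟨f, k4⟩)
        · exact k5 f
      have a1 := pr_or (fun x : Pl n d => Bp x ∨ bad (σ ^ m) g x) (fun x : Pl n d =>
        (Sum.inl x.1 ∈ heavy (σ ^ m) g ∨ Sum.inr x.2.1 ∈ heavy (σ ^ m) g) ∨ (x.1, x.2.1) ∈ Q)
      have a2 := pr_or Bp (bad (σ ^ m) g)
      have a3 := pr_or (fun x : Pl n d =>
        (Sum.inl x.1 ∈ heavy (σ ^ m) g ∨ Sum.inr x.2.1 ∈ heavy (σ ^ m) g))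
        (fun x : Pl n d => (x.1, x.2.1) ∈ Q)
      have a4 := pr_bad hτ g
      have a5 := pr_heavy (d := d) hn (heavy (σ ^ m) g) hM.le
      have a6 := pr_pairs (d := d) Q
      have a7 : (Q.card : ℝ) / n ^ 2 ≤ s * (2 * M ^ 2) / n ^ 2 := by
        gcongr
        exact_mod_cast h3
      linarith
    have h8 : pr (fun q : Ns n d N × Pl n d => F (z ⊔ pl q.2) ∧ ¬ F (z ⊔ ns q.1)) ≤
        (4 * s + 2) * σ ^ m + (M : ℝ) / n + s * (2 * M ^ 2) / n ^ 2 := by
      apply pr_prod_le _ _ (by positivity)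
      intro w
      refine le_trans (pr_mono ?_) h5
      rintro x ⟨h10, _⟩
      exact h10
    refine h8.trans ?_
    unfold loss
    have : 0 ≤ ((s : ℝ) + 1) * ε := by positivity
    linarith

end Pool.Agent.V8H11.OVC
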