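import Mathlib

set_option autoImplicit false

/-!
# Orthogonal Vectors and circuits

Definitions used in the statement of `MP_0f984e_lc.FewNegations`.
-/

namespace Pool.Agent.V8H11.OVC

/-- Two sequences of `n` vectors in `{0, 1} ^ d`. -/
abbrev Inst (n d : ℕ) := (Fin n → Fin d → Bool) × (Fin n → Fin d → Bool)

/-- The vectors of each of the two sequences are distinct. -/
def Valid {n d : ℕ} (x : Inst n d) : Prop := Function.Injective x.1 ∧ Function.Injective x.2

/-- Orthogonal Vectors: there are `u` in the first and `v` in the second sequence with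
`∑ u_k v_k = 0`. -/
def OV {n d : ℕ} (x : Inst n d) : Prop :=
  ∃ i j, ∑ k, (x.1 i k).toNat * (x.2 j k).toNat = 0

/-- Circuits with `L` gates, listed in topological order; every constructor except `nil` adds one
gate to a circuit with `L` gates:
* `left i φ`, `right j φ`: an antitone function of the `i`-th vector of the first sequence, or of
  the `j`-th vector of the second sequence (a `0` may only be replaced by a `1` at the price of a
  smaller value);
* `or S`: the disjunction of the gates in `S`, for an arbitrary set `S` of earlier gates;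
* `and a b`: the conjunction of two earlier gates;
* `not a`: the negation of an earlier gate. -/
inductive Circuit (n d : ℕ) : ℕ → Type
  | nil : Circuit n d 0
  | left {L : ℕ} (c : Circuit n d L) (i : Fin n) (φ : (Fin d → Bool) → Prop) (h : Antitone φ) :
      Circuit n d (L + 1)
  | right {L : ℕ} (c : Circuit n d L) (j : Fin n) (φ : (Fin d → Bool) → Prop) (h : Antitone φ) :
      Circuit n d (L + 1)
  | or {L : ℕ} (c : Circuit n d L) (S : Set (Fin L)) : Circuit n d (L + 1)
  | and {L : ℕ} (c : Circuit n d L) (a b : Fin L) : Circuit n d (L + 1)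
  | not {L : ℕ} (c : Circuit n d L) (a : Fin L) : Circuit n d (L + 1)

/-- The values of the gates on an instance. -/
def Circuit.val {n d : ℕ} : {L : ℕ} → Circuit n d L → Inst n d → Fin L → Prop
  | _, .nil, _ => Fin.elim0
  | _, .left c i φ _, x => Fin.snoc (α := fun _ => Prop) (c.val x) (φ (x.1 i))
  | _, .right c j φ _, x => Fin.snoc (α := fun _ => Prop) (c.val x) (φ (x.2 j))
  | _, .or c S, x => Fin.snoc (α := fun _ => Prop) (c.val x) (∃ a ∈ S, c.val x a)
  | _, .and c a b, x => Fin.snoc (α := fun _ => Prop) (c.val x) (c.val x a ∧ c.val x b)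
  | _, .not c a, x => Fin.snoc (α := fun _ => Prop) (c.val x) (¬ c.val x a)

/-- The number of the `and` gates. -/
def Circuit.numAnd {n d : ℕ} : {L : ℕ} → Circuit n d L → ℕ
  | _, .nil => 0
  | _, .left c _ _ _ => c.numAnd
  | _, .right c _ _ _ => c.numAnd
  | _, .or c _ => c.numAnd
  | _, .and c _ _ => c.numAnd + 1
  | _, .not c _ => c.numAnd

/-- The number of the `not` gates. -/
def Circuit.numNot {n d : ℕ} : {L : ℕ} → Circuit n d L → ℕ
  | _, .nil => 0
  | _, .left c _ _ _ => c.numNot
  | _, .right c _ _ _ => c.numNot
  | _, .or c _ => c.numNot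
  | _, .and c _ _ => c.numNot
  | _, .not c _ => c.numNot + 1

/-- The answer of a circuit: the value of its last gate. -/
def Circuit.out {n d L : ℕ} (c : Circuit n d (L + 1)) (x : Inst n d) : Prop :=
  c.val x (Fin.last L)

end Pool.Agent.V8H11.OVC
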