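import Pool.Agent.V8H11.OVC.Defs
import Pool.Agent.V8H11.OVC.Core

set_option autoImplicit false

/-!
# Circuits with few negations: the code of the values of the `not` gates
-/

namespace Pool.Agent.V8H11.OVC

open Finset
open scoped Classical

variable {n d : ℕ}

/-- The values of the gates if the values of the `not` gates are the binary digits of `k`. -/
def Circuit.vb : {L : ℕ} → Circuit n d L → ℕ → Inst n d → Fin L → Prop
  | _, .nil, _, _ => Fin.elim0
  | _, .left c i φ _, k, x => Fin.snoc (α := fun _ => Prop) (c.vb k x) (φ (x.1 i))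
  | _, .right c j φ _, k, x => Fin.snoc (α := fun _ => Prop) (c.vb k x) (φ (x.2 j))
  | _, .or c S, k, x => Fin.snoc (α := fun _ => Prop) (c.vb k x) (∃ a ∈ S, c.vb k x a)
  | _, .and c a b, k, x => Fin.snoc (α := fun _ => Prop) (c.vb k x) (c.vb k x a ∧ c.vb k x b)
  | _, .not c _, k, x => Fin.snoc (α := fun _ => Prop) (c.vb (k / 2) x) (k % 2 = 1)

/-- The code of the actual values of the `not` gates. -/
noncomputable def Circuit.code : {L : ℕ} → Circuit n d L → Inst n d → ℕ
  | _, .nil, _ => 0
  | _, .left c _ _ _, x => c.code x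
  | _, .right c _ _ _, x => c.code x
  | _, .or c _, x => c.code x
  | _, .and c _ _, x => c.code x
  | _, .not c a, x => 2 * c.code x + (if c.val x a then 0 else 1)

lemma Circuit.code_lt {L : ℕ} (c : Circuit n d L) (x : Inst n d) : c.code x < 2 ^ c.numNot := by
  induction c with
  | nil => simp [Circuit.code]
  | left c i φ h ih => exact ih
  | right c j φ h ih => exact ih
  | or c S ih => exact ih
  | and c a b ih => exact ih
  | not c a ih =>
    simp only [Circuit.code, Circuit.numNot, pow_succ]
    split_ifs <;> omega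

lemma Circuit.vb_code {L : ℕ} (c : Circuit n d L) (x : Inst n d) : c.vb (c.code x) x = c.val x := by
  induction c with
  | nil => rfl
  | left c i φ h ih => simp only [Circuit.vb, Circuit.code, Circuit.val, ih]
  | right c j φ h ih => simp only [Circuit.vb, Circuit.code, Circuit.val, ih]
  | or c S ih => simp only [Circuit.vb, Circuit.code, Circuit.val, ih]
  | and c a b ih => simp only [Circuit.vb, Circuit.code, Circuit.val, ih]
  | not c a ih =>
    simp only [Circuit.vb, Circuit.code, Circuit.val]
    have h1 : (2 * c.code x + if c.val x a then 0 else 1) / 2 = c.code x := by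
      split_ifs <;> omega
    have h2 : ((2 * c.code x + if c.val x a then 0 else 1) % 2 = 1) = ¬ c.val x a := by
      by_cases h : c.val x a
      · simp [h]
      · simp only [h, if_false, not_false_eq_true, eq_iff_iff, iff_true]; omega
    rw [h1, h2, ih]

/-- The functions on which the values of the `not` gates depend. -/
noncomputable def Circuit.crit : {L : ℕ} → Circuit n d L → Finset (Inst n d → Prop)
  | _, .nil => ∅
  | _, .left c _ _ _ => c.crit
  | _, .right c _ _ _ => c.crit
  | _, .or c _ => c.crit
  | _, .and c _ _ => c.crit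
  | _, .not c a => c.crit ∪ (range (2 ^ c.numNot)).image (fun k x => c.vb k x a)

lemma Circuit.card_crit {L : ℕ} (c : Circuit n d L) : c.crit.card ≤ 2 ^ c.numNot := by
  suffices h : c.crit.card + 1 ≤ 2 ^ c.numNot by omega
  induction c with
  | nil => simp [Circuit.crit, Circuit.numNot]
  | left c i φ h ih => exact ih
  | right c j φ h ih => exact ih
  | or c S ih => exact ih
  | and c a b ih => exact ih
  | not c a ih =>
    simp only [Circuit.crit, Circuit.numNot, pow_succ]
    have h1 := Finset.card_union_le c.crit ((range (2 ^ c.numNot)).image (fun k x => c.vb k x a))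
    have h2 := Finset.card_image_le (s := range (2 ^ c.numNot)) (f := fun k x => c.vb k x a)
    rw [Finset.card_range] at h2
    omega

/-- **The code decreases** if the critical functions increase. -/
lemma Circuit.code_le {L : ℕ} (c : Circuit n d L) (x y : Inst n d)
    (h : ∀ F ∈ c.crit, F x → F y) : c.code y ≤ c.code x := by
  induction c with
  | nil => simp [Circuit.code]
  | left c i φ _ ih => exact ih h
  | right c j φ _ ih => exact ih h
  | or c S ih => exact ih h
  | and c a b ih => exact ih h
  | not c a ih =>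
    simp only [Circuit.crit] at h
    have h1 := ih fun F hF => h F (Finset.mem_union_left _ hF)
    simp only [Circuit.code]
    rcases h1.lt_or_eq with h2 | h2
    · split_ifs <;> omega
    · have h3 : c.val x a → c.val y a := by
        intro hx
        rw [← c.vb_code x] at hx
        rw [← c.vb_code y, h2]
        refine h (fun z => c.vb (c.code x) z a) (Finset.mem_union_right _ ?_) hx
        exact Finset.mem_image.2 ⟨c.code x, Finset.mem_range.2 (c.code_lt x), rfl⟩
      split_ifs with h4 h5 h5
      · omega
      · omega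
      · exact absurd (h3 h5) h4
      · omega

/-- The functions on which the answer depends. -/
noncomputable def Circuit.outs {L : ℕ} (c : Circuit n d (L + 1)) : Finset (Inst n d → Prop) :=
  (range (2 ^ c.numNot)).image (fun k x => c.vb k x (Fin.last L))

lemma Circuit.card_outs {L : ℕ} (c : Circuit n d (L + 1)) : c.outs.card ≤ 2 ^ c.numNot := by
  have := Finset.card_image_le (s := range (2 ^ c.numNot)) (f := fun k x => c.vb k x (Fin.last L))
  rwa [Finset.card_range] at this

/-- The code decreases strictly if the answer changes from `true` to `false`. -/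
lemma Circuit.code_lt_of {L : ℕ} (c : Circuit n d (L + 1)) (x y : Inst n d)
    (h : ∀ F ∈ c.crit ∪ c.outs, F x → F y) (hx : c.out x) (hy : ¬ c.out y) :
    c.code y < c.code x := by
  have h1 := c.code_le x y fun F hF => h F (Finset.mem_union_left _ hF)
  rcases h1.lt_or_eq with h2 | h2
  · exact h2
  · exfalso
    apply hy
    unfold Circuit.out at hx ⊢
    rw [← c.vb_code x] at hx
    rw [← c.vb_code y, h2]
    refine h (fun z => c.vb (c.code x) z (Fin.last L)) (Finset.mem_union_right _ ?_) hx
    exact Finset.mem_image.2 ⟨c.code x, Finset.mem_range.2 (c.code_lt x), rfl⟩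

/-! ### The instances made of tables -/

/-- The labelled vector of a row of the first kind. -/
def encL {n d e : ℕ} (i : Fin n) (v : Fin d → Bool) : Fin (d + e + e) → Bool := fun k =>
  if h : k.val < d then !(v ⟨k, h⟩) else if k.val < d + e then i.val.testBit (k - d) else false

/-- The labelled vector of a row of the second kind. -/
def encR {n d e : ℕ} (i : Fin n) (v : Fin d → Bool) : Fin (d + e + e) → Bool := fun k =>
  if h : k.val < d then !(v ⟨k, h⟩) else if k.val < d + e then false
    else i.val.testBit (k - (d + e))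

/-- The instance of a table. -/
def inst {n d : ℕ} (e : ℕ) (x : Tab n d) : Inst n (d + e + e) :=
  (fun i => encL i (x (Sum.inl i)), fun j => encR j (x (Sum.inr j)))

lemma encL_anti {n d e : ℕ} (i : Fin n) :
    Antitone (encL i : (Fin d → Bool) → Fin (d + e + e) → Bool) := by
  intro v w hvw k
  unfold encL
  split_ifs with h1 h2
  · have := hvw ⟨k, h1⟩
    revert this
    cases v ⟨k, h1⟩ <;> cases w ⟨k, h1⟩ <;> simp
  · exact le_rfl
  · exact le_rfl

lemma encR_anti {n d e : ℕ} (i : Fin n) :
    Antitone (encR i : (Fin d → Bool) → Fin (d + e + e) → Bool) := by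
  intro v w hvw k
  unfold encR
  split_ifs with h1 h2
  · have := hvw ⟨k, h1⟩
    revert this
    cases v ⟨k, h1⟩ <;> cases w ⟨k, h1⟩ <;> simp
  · exact le_rfl
  · exact le_rfl

lemma inst_valid {n d e : ℕ} (he : n ≤ 2 ^ e) (x : Tab n d) : Valid (inst e x) := by
  constructor
  · intro i j hij
    apply Fin.ext
    apply Nat.eq_of_testBit_eq
    intro k
    by_cases hk : k < e
    · have h1 := congrFun hij ⟨d + k, by omega⟩
      simpa [inst, encL, hk] using h1
    · have h1 : ∀ i : Fin n, i.val.testBit k = false := fun i =>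
        Nat.testBit_lt_two_pow (i.isLt.trans_le (he.trans (Nat.pow_le_pow_right (by norm_num)
          (by omega))))
      rw [h1, h1]
  · intro i j hij
    apply Fin.ext
    apply Nat.eq_of_testBit_eq
    intro k
    by_cases hk : k < e
    · have h1 := congrFun hij ⟨d + e + k, by omega⟩
      have h2 : ¬ d + e + k < d := by omega
      have h3 : ¬ d + e + k < d + e := by omega
      simpa [inst, encR, h2, h3] using h1
    · have h1 : ∀ i : Fin n, i.val.testBit k = false := fun i =>
        Nat.testBit_lt_two_pow (i.isLt.trans_le (he.trans (Nat.pow_le_pow_right (by norm_num)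
          (by omega))))
      rw [h1, h1]

/-- The table covers. -/
def Cov {n d : ℕ} (x : Tab n d) : Prop :=
  ∃ i j, ∀ k, x (Sum.inl i) k = true ∨ x (Sum.inr j) k = true

lemma ov_inst {n d e : ℕ} (x : Tab n d) : OV (inst e x) ↔ Cov x := by
  unfold OV Cov
  refine exists_congr fun i => exists_congr fun j => ?_
  rw [Finset.sum_eq_zero_iff]
  constructor
  · intro h k
    have h1 := h ⟨k.val, by omega⟩ (Finset.mem_univ _)
    simp only [inst, encL, encR, k.isLt, dif_pos] at h1
    revert h1
    cases x (Sum.inl i) k <;> cases x (Sum.inr j) k <;> simp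
  · intro h k _
    simp only [inst, encL, encR]
    by_cases hk : k.val < d
    · have h1 := h ⟨k.val, hk⟩
      simp only [hk, dif_pos]
      rcases h1 with h1 | h1 <;> simp [h1]
    · by_cases hk2 : k.val < d + e
      · simp [hk, hk2]
      · simp [hk, hk2]

lemma Cov.mono {n d : ℕ} {x y : Tab n d} (h : x ≤ y) (hx : Cov x) : Cov y := by
  obtain ⟨i, j, hk⟩ := hx
  refine ⟨i, j, fun k => ?_⟩
  rcases hk k with h1 | h1
  · left
    have := h (Sum.inl i) k
    rw [h1] at this
    exact le_antisymm (Bool.le_true _) this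
  · right
    have := h (Sum.inr j) k
    rw [h1] at this
    exact le_antisymm (Bool.le_true _) this

lemma cov_pl {n d : ℕ} (z : Tab n d) (x : Pl n d) : Cov (z ⊔ pl x) := by
  refine ⟨x.1, x.2.1, fun k => ?_⟩
  simp only [Pi.sup_apply, pl, Sum.elim_inl, Sum.elim_inr, if_true]
  cases h : x.2.2 k <;> simp [h]

/-- The functions computed by a circuit with fixed values of the `not` gates. -/
lemma Circuit.comp {n d e : ℕ} {L : ℕ} (c : Circuit n (d + e + e) L) : ∀ k : ℕ,
    ∃ l, Comp n d l c.numAnd ∧ ∀ a, (fun x => c.vb k (inst e x) a) ∈ l := by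
  induction c with
  | nil => exact fun k => ⟨[], Comp.nil, fun a => a.elim0⟩
  | left c i φ h ih =>
    intro k
    obtain ⟨l, h1, h2⟩ := ih k
    refine ⟨_, Comp.row h1 (Sum.inl i) (fun v => φ (encL i v))
      (fun v w hvw => h (encL_anti i hvw)), fun a => ?_⟩
    refine Fin.lastCases ?_ (fun a => ?_) a
    · simp [Circuit.vb, inst]
    · simpa [Circuit.vb] using Or.inr (h2 a)
  | right c j φ h ih =>
    intro k
    obtain ⟨l, h1, h2⟩ := ih k
    refine ⟨_, Comp.row h1 (Sum.inr j) (fun v => φ (encR j v))
      (fun v w hvw => h (encR_anti j hvw)), fun a => ?_⟩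
    refine Fin.lastCases ?_ (fun a => ?_) a
    · simp [Circuit.vb, inst]
    · simpa [Circuit.vb] using Or.inr (h2 a)
  | or c S ih =>
    intro k
    obtain ⟨l, h1, h2⟩ := ih k
    refine ⟨_, Comp.or h1 {F | ∃ a ∈ S, F = fun x => c.vb k (inst e x) a} ?_, fun a => ?_⟩
    · rintro F ⟨a, _, rfl⟩
      exact h2 a
    · refine Fin.lastCases ?_ (fun a => ?_) a
      · apply List.mem_cons.2
        left
        funext x
        simp only [Circuit.vb, Fin.snoc_last, Set.mem_ofPred_eq, eq_iff_iff]
        constructor
        · rintro ⟨a, ha, hx⟩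
          exact ⟨_, ⟨a, ha, rfl⟩, hx⟩
        · rintro ⟨F, ⟨a, ha, rfl⟩, hx⟩
          exact ⟨a, ha, hx⟩
      · simpa [Circuit.vb] using Or.inr (h2 a)
  | and c a b ih =>
    intro k
    obtain ⟨l, h1, h2⟩ := ih k
    refine ⟨_, Comp.and h1 _ _ (h2 a) (h2 b), fun a' => ?_⟩
    refine Fin.lastCases ?_ (fun a' => ?_) a'
    · simp [Circuit.vb]
    · simpa [Circuit.vb] using Or.inr (h2 a')
  | not c a ih =>
    intro k
    obtain ⟨l, h1, h2⟩ := ih (k / 2)
    refine ⟨_, Comp.const h1 (k % 2 = 1), fun a' => ?_⟩
    refine Fin.lastCases ?_ (fun a' => ?_) a'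
    · simp [Circuit.vb]
    · simpa [Circuit.vb] using Or.inr (h2 a')

lemma Circuit.comp_crit {n d e : ℕ} {L : ℕ} (c : Circuit n (d + e + e) L) : ∀ F ∈ c.crit,
    ∃ l s, s ≤ c.numAnd ∧ Comp n d l s ∧ (fun x => F (inst e x)) ∈ l := by
  induction c with
  | nil => simp [Circuit.crit]
  | left c i φ h ih => exact ih
  | right c j φ h ih => exact ih
  | or c S ih => exact ih
  | and c a b ih =>
    intro F hF
    obtain ⟨l, s, h1, h2⟩ := ih F hF
    exact ⟨l, s, h1.trans (Nat.le_succ _), h2⟩
  | not c a ih =>
    intro F hF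
    rcases Finset.mem_union.1 hF with hF | hF
    · exact ih F hF
    · obtain ⟨k, _, rfl⟩ := Finset.mem_image.1 hF
      obtain ⟨l, h1, h2⟩ := c.comp k
      exact ⟨l, c.numAnd, le_rfl, h1, h2 a⟩

lemma Circuit.comp_all {n d e : ℕ} {L : ℕ} (c : Circuit n (d + e + e) (L + 1)) :
    ∀ F ∈ c.crit ∪ c.outs,
    ∃ l s, s ≤ c.numAnd ∧ Comp n d l s ∧ (fun x => F (inst e x)) ∈ l := by
  intro F hF
  rcases Finset.mem_union.1 hF with hF | hF
  · exact c.comp_crit F hF
  · obtain ⟨k, _, rfl⟩ := Finset.mem_image.1 hF
    obtain ⟨l, h1, h2⟩ := c.comp k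
    exact ⟨l, c.numAnd, le_rfl, h1, h2 _⟩

end Pool.Agent.V8H11.OVC
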