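import Pool.Agent.V8H11.OVC.Chain

set_option autoImplicit false

/-!
# The choice of the parameters
-/

namespace Pool.Agent.V8H11.OVC

open Finset Filter Topology
open scoped Classical

/-- The bound for the loss. -/
noncomputable def G (m : ℕ) (x : ℝ) : ℝ :=
  2 * x ^ (-1 : ℝ) + 6 * x ^ (-(1 / 8) : ℝ) + 4 * (Real.log x * x ^ (-(1 / 8) : ℝ)) +
    32 * (Real.log x * x ^ (-(1 / (8 * m)) : ℝ)) ^ 2

lemma log_rpow {a : ℝ} (ha : 0 < a) :
    Tendsto (fun x : ℝ => Real.log x * x ^ (-a)) atTop (𝓝 0) := by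
  have h := (isLittleO_log_rpow_atTop ha).tendsto_div_nhds_zero
  refine h.congr' ?_
  filter_upwards [eventually_gt_atTop 0] with x hx
  rw [Real.rpow_neg hx.le, div_eq_mul_inv]

lemma G_tendsto (m : ℕ) (hm : 3 ≤ m) : Tendsto (G m) atTop (𝓝 0) := by
  have hm0 : (0 : ℝ) < m := by positivity
  have h1 := (tendsto_rpow_neg_atTop (y := 1) one_pos).const_mul 2
  have h2 := (tendsto_rpow_neg_atTop (y := 1 / 8) (by norm_num)).const_mul 6
  have h3 := (log_rpow (a := 1 / 8) (by norm_num)).const_mul 4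
  have h4 := ((log_rpow (a := 1 / (8 * (m : ℝ))) (by positivity)).pow 2).const_mul 32
  have h := ((h1.add h2).add h3).add h4
  simp only [mul_zero, add_zero, ne_eq, OfNat.ofNat_ne_zero, not_false_eq_true, zero_pow] at h
  exact h

/-- The estimate of the loss. -/
lemma loss_le (m : ℕ) (hm : 3 ≤ m) (n : ℕ) (hn : 3 ≤ n) (s : ℕ)
    (hs : (s : ℝ) ≤ (n : ℝ) ^ (2 - 5 / m : ℝ)) :
    ∃ (σ ε : ℝ) (M : ℕ), 0 ≤ σ ∧ σ ≤ 1 ∧ (1 - σ) ^ M ≤ ε ∧
      (n : ℝ) ^ (1 / (2 * m) : ℝ) * loss m n M s σ ε ≤ G m n := by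
  set x : ℝ := (n : ℝ) with hx
  have hx3 : (3 : ℝ) ≤ x := by rw [hx]; exact_mod_cast hn
  have hx1 : 1 ≤ x := by linarith
  have hx0 : 0 < x := by linarith
  have hm0 : (0 : ℝ) < m := by positivity
  have hm3 : (3 : ℝ) ≤ m := by exact_mod_cast hm
  have hlog : 1 ≤ Real.log x := by
    rw [Real.le_log_iff_exp_le hx0]
    exact (Real.exp_one_lt_d9.le.trans (by norm_num)).trans hx3
  set a : ℝ := 17 / (8 * m) with ha
  have ha0 : 0 ≤ a := by positivity
  set σ : ℝ := x ^ (-a) with hσ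
  have hσ0 : 0 < σ := Real.rpow_pos_of_pos hx0 _
  have hσ1 : σ ≤ 1 := Real.rpow_le_one_of_one_le_of_nonpos hx1 (by linarith)
  set M : ℕ := ⌈3 * Real.log x / σ⌉₊ with hM
  have hM1 : 3 * Real.log x / σ ≤ M := Nat.le_ceil _
  have hM2 : (M : ℝ) ≤ 4 * (Real.log x * x ^ a) := by
    have h1 : (M : ℝ) < 3 * Real.log x / σ + 1 := Nat.ceil_lt_add_one (by positivity)
    have h2 : 3 * Real.log x / σ = 3 * (Real.log x * x ^ a) := by
      rw [hσ, Real.rpow_neg hx0.le]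
      field_simp
    have h3 : 1 ≤ Real.log x * x ^ a := by
      have h4 : 1 ≤ x ^ a := Real.one_le_rpow hx1 ha0
      nlinarith
    linarith
  refine ⟨σ, Real.exp (-(σ * M)), M, hσ0.le, hσ1, ?_, ?_⟩
  · have h1 : 1 - σ ≤ Real.exp (-σ) := by
      have := Real.add_one_le_exp (-σ)
      linarith
    calc (1 - σ) ^ M ≤ (Real.exp (-σ)) ^ M := pow_le_pow_left₀ (by linarith) h1 M
      _ = Real.exp (-(σ * M)) := by rw [← Real.exp_nat_mul]; congr 1; ring
  · have hε : Real.exp (-(σ * M)) ≤ x ^ (-3 : ℝ) := by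
      rw [Real.rpow_def_of_pos hx0]
      apply Real.exp_le_exp.2
      rw [div_le_iff₀ hσ0] at hM1
      nlinarith
    set y : ℝ := x ^ (1 / (2 * m) : ℝ) with hy
    have hy0 : 0 < y := Real.rpow_pos_of_pos hx0 _
    have h5m : 5 / (m : ℝ) ≤ 5 / 3 := by
      apply div_le_div_of_nonneg_left (by norm_num) (by norm_num) hm3
    have hinv : 1 / (2 * (m : ℝ)) ≤ 5 / m := by
      rw [div_le_div_iff₀ (by positivity) hm0]
      linarith
    have hB : 1 ≤ x ^ (2 - 5 / m : ℝ) := Real.one_le_rpow hx1 (by linarith)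
    have h1 : y * (((s : ℝ) + 1) * Real.exp (-(σ * M))) ≤ 2 * x ^ (-1 : ℝ) := by
      have h2 : (s : ℝ) + 1 ≤ 2 * x ^ (2 - 5 / m : ℝ) := by linarith
      calc y * (((s : ℝ) + 1) * Real.exp (-(σ * M)))
          ≤ y * ((2 * x ^ (2 - 5 / m : ℝ)) * x ^ (-3 : ℝ)) :=
            mul_le_mul_of_nonneg_left (mul_le_mul h2 hε (Real.exp_nonneg _) (by positivity)) hy0.le
        _ = 2 * (y * x ^ (2 - 5 / m : ℝ) * x ^ (-3 : ℝ)) := by ring
        _ = 2 * x ^ (1 / (2 * m) + (2 - 5 / m) + (-3) : ℝ) := by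
            rw [hy, ← Real.rpow_add hx0, ← Real.rpow_add hx0]
        _ ≤ 2 * x ^ (-1 : ℝ) := by
            have := Real.rpow_le_rpow_of_exponent_le hx1
              (show (1 / (2 * m) + (2 - 5 / m) + (-3) : ℝ) ≤ -1 by linarith)
            linarith
    have h2 : y * ((4 * (s : ℝ) + 2) * σ ^ m) ≤ 6 * x ^ (-(1 / 8) : ℝ) := by
      have h3 : σ ^ m = x ^ (-(17 / 8) : ℝ) := by
        rw [hσ, ← Real.rpow_natCast, ← Real.rpow_mul hx0.le]
        congr 1
        rw [ha]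
        field_simp
      have h4 : 4 * (s : ℝ) + 2 ≤ 6 * x ^ (2 - 5 / m : ℝ) := by linarith
      rw [h3]
      calc y * ((4 * (s : ℝ) + 2) * x ^ (-(17 / 8) : ℝ))
          ≤ y * ((6 * x ^ (2 - 5 / m : ℝ)) * x ^ (-(17 / 8) : ℝ)) :=
            mul_le_mul_of_nonneg_left (mul_le_mul_of_nonneg_right h4 (by positivity)) hy0.le
        _ = 6 * (y * x ^ (2 - 5 / m : ℝ) * x ^ (-(17 / 8) : ℝ)) := by ring
        _ = 6 * x ^ (1 / (2 * m) + (2 - 5 / m) + (-(17 / 8)) : ℝ) := by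
            rw [hy, ← Real.rpow_add hx0, ← Real.rpow_add hx0]
        _ ≤ 6 * x ^ (-(1 / 8) : ℝ) := by
            have := Real.rpow_le_rpow_of_exponent_le hx1
              (show (1 / (2 * m) + (2 - 5 / m) + (-(17 / 8)) : ℝ) ≤ -(1 / 8) by linarith)
            linarith
    have h3 : y * ((M : ℝ) / n) ≤ 4 * (Real.log x * x ^ (-(1 / 8) : ℝ)) := by
      have h4 : y * x ^ a ≤ x ^ (-(1 / 8) : ℝ) * x := by
        nth_rewrite 3 [← Real.rpow_one x]
        rw [hy, ← Real.rpow_add hx0, ← Real.rpow_add hx0]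
        apply Real.rpow_le_rpow_of_exponent_le hx1
        have h5 : 1 / (2 * (m : ℝ)) + a = 21 / (8 * m) := by rw [ha]; field_simp; norm_num
        rw [h5, div_le_iff₀ (by positivity)]
        nlinarith
      have h5 := mul_le_mul_of_nonneg_left h4 (show 0 ≤ 4 * Real.log x by positivity)
      calc y * ((M : ℝ) / n) = y * M / x := by rw [← hx]; ring
        _ ≤ y * (4 * (Real.log x * x ^ a)) / x := by gcongr
        _ = 4 * Real.log x * (y * x ^ a) / x := by ring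
        _ ≤ 4 * Real.log x * (x ^ (-(1 / 8) : ℝ) * x) / x := by gcongr
        _ = _ := by field_simp
    have h4 : y * ((s : ℝ) * (2 * M ^ 2) / n ^ 2) ≤
        32 * (Real.log x * x ^ (-(1 / (8 * m)) : ℝ)) ^ 2 := by
      rw [← hx, ← mul_div_assoc, div_le_iff₀ (by positivity)]
      have h5 : (M : ℝ) ^ 2 ≤ (4 * (Real.log x * x ^ a)) ^ 2 :=
        pow_le_pow_left₀ (by positivity) hM2 2
      calc y * ((s : ℝ) * (2 * M ^ 2))
          ≤ y * (x ^ (2 - 5 / m : ℝ) * (2 * (4 * (Real.log x * x ^ a)) ^ 2)) := by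
            apply mul_le_mul_of_nonneg_left _ hy0.le
            apply mul_le_mul hs _ (by positivity) (by positivity)
            linarith
        _ = 32 * Real.log x ^ 2 * (y * (x ^ (2 - 5 / m : ℝ) * (x ^ a * x ^ a))) := by ring
        _ = 32 * Real.log x ^ 2 * ((x ^ (-(1 / (8 * m)) : ℝ) * x ^ (-(1 / (8 * m)) : ℝ)) *
            (x ^ (2 : ℝ))) := by
            congr 1
            rw [hy, ← Real.rpow_add hx0, ← Real.rpow_add hx0, ← Real.rpow_add hx0,
              ← Real.rpow_add hx0, ← Real.rpow_add hx0]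
            congr 1
            rw [ha]
            field_simp
            ring
        _ = _ := by
            rw [Real.rpow_two]; ring
    unfold loss G
    rw [← hx] at *
    have h5 : y * (((s : ℝ) + 1) * Real.exp (-(σ * M)) + (4 * s + 2) * σ ^ m + M / x +
        s * (2 * M ^ 2) / x ^ 2) = y * (((s : ℝ) + 1) * Real.exp (-(σ * M))) +
        y * ((4 * (s : ℝ) + 2) * σ ^ m) + y * ((M : ℝ) / x) +
        y * ((s : ℝ) * (2 * M ^ 2) / x ^ 2) := by ring
    rw [h5]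
    linarith

/-- The covering probability. -/
lemma cover_le (n d P : ℕ) (hn : 1 ≤ n) (hP : 1 ≤ P) (hd : 3 * P * Real.log n ≤ d) :
    (n : ℝ) ^ 2 * (1 - 1 / (P : ℝ)) ^ d ≤ 1 / n := by
  have hn0 : (0 : ℝ) < n := by exact_mod_cast hn
  have hP0 : (0 : ℝ) < P := by exact_mod_cast hP
  have h1 : 1 - 1 / (P : ℝ) ≤ Real.exp (-(1 / P)) := by
    have := Real.add_one_le_exp (-(1 / (P : ℝ)))
    linarith
  have h0 : 0 ≤ 1 - 1 / (P : ℝ) := by
    rw [sub_nonneg, div_le_one hP0]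
    exact_mod_cast hP
  have h2 : (1 - 1 / (P : ℝ)) ^ d ≤ Real.exp (-(3 * Real.log n)) := by
    calc (1 - 1 / (P : ℝ)) ^ d ≤ (Real.exp (-(1 / P))) ^ d := pow_le_pow_left₀ h0 h1 d
      _ = Real.exp (-(d / P)) := by rw [← Real.exp_nat_mul]; congr 1; ring
      _ ≤ Real.exp (-(3 * Real.log n)) := by
        apply Real.exp_le_exp.2
        rw [neg_le_neg_iff, le_div_iff₀ hP0]
        linarith
  have h3 : Real.exp (-(3 * Real.log n)) = 1 / (n : ℝ) ^ 3 := by
    rw [Real.exp_neg, mul_comm, Real.exp_mul, Real.exp_log hn0, one_div]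
    norm_cast
  rw [h3] at h2
  calc (n : ℝ) ^ 2 * (1 - 1 / (P : ℝ)) ^ d ≤ (n : ℝ) ^ 2 * (1 / (n : ℝ) ^ 3) :=
        mul_le_mul_of_nonneg_left h2 (by positivity)
    _ = 1 / n := by field_simp

/-- **The theorem.** -/
theorem main (m : ℕ) (hm : 3 ≤ m) : ∃ n₀ : ℕ, ∀ n t D : ℕ, n₀ ≤ n → 16 ^ (t * m) ≤ n →
    4 * (2 * m : ℝ) ^ 2 ^ (t + 1) * Real.log n ≤ D →
    ∀ (Ω : Type) [Fintype Ω] (w : Ω → ℝ), (∀ ω, 0 ≤ w ω) → ∑ ω, w ω = 1 →
    ∀ (L : Ω → ℕ) (c : ∀ ω, Circuit n D (L ω + 1)) (s : ℕ),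
    (∀ ω, (c ω).numNot ≤ t) → (∀ ω, (c ω).numAnd ≤ s) →
    (∀ x : Inst n D, Valid x → 1 - 1 / (3 * 2 ^ t) ≤ ∑ ω with ((c ω).out x ↔ OV x), w ω) →
    (n : ℝ) ^ (2 - 5 / m : ℝ) ≤ s := by
  -- the threshold
  have h1 : ∀ᶠ n : ℕ in atTop, 2 * G m n ≤ 1 / 6 := by
    have h2 : Tendsto (fun n : ℕ => 2 * G m n) atTop (𝓝 (2 * 0)) :=
      ((G_tendsto m hm).comp tendsto_natCast_atTop_atTop).const_mul _
    rw [mul_zero] at h2
    filter_upwards [h2.eventually (gt_mem_nhds (show (0 : ℝ) < 1 / 6 by norm_num))] with n hn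
    exact hn.le
  obtain ⟨n₁, hn₁⟩ := eventually_atTop.1 h1
  refine ⟨max n₁ 12, ?_⟩
  intro n t D hn htn hD Ω _ w hw hw1 L c s hNt hA hcor
  set R : ℕ := 2 ^ t with hR
  have hRpos : 0 < R := by positivity
  have hR0 : (0 : ℝ) < R := by exact_mod_cast hRpos
  have hn12 : 12 ≤ n := (le_max_right _ _).trans hn
  have hnn : n₁ ≤ n := (le_max_left _ _).trans hn
  by_contra hcon
  push Not at hcon
  obtain ⟨σ, ε, M, hσ0, hσ1, hε, hloss⟩ := loss_le m hm n (by omega) s hcon.le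
  have hε0 : 0 ≤ ε := le_trans (pow_nonneg (by linarith) M) hε
  -- the parameters
  set N : ℕ := 2 * m with hN
  have hN0 : N ≠ 0 := by omega
  have : NeZero N := ⟨hN0⟩
  set P : ℕ := N ^ (2 * R) with hP
  have hP36 : 36 ≤ P := by
    calc 36 = 6 ^ 2 := by norm_num
      _ ≤ N ^ 2 := Nat.pow_le_pow_left (by omega) 2
      _ ≤ N ^ (2 * R) := Nat.pow_le_pow_right (by omega) (by omega)
  have hPr : (P : ℝ) = (2 * m : ℝ) ^ 2 ^ (t + 1) := by
    rw [hP, hN, hR]
    push_cast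
    rw [pow_succ, mul_comm (2 ^ t) 2]
  have hP36r : (36 : ℝ) ≤ P := by exact_mod_cast hP36
  have hx0 : (0 : ℝ) < n := by positivity
  have hm0 : (0 : ℝ) < m := by positivity
  have hRy : (R : ℝ) * R ≤ (n : ℝ) ^ (1 / (2 * m) : ℝ) := by
    have h2 : ((R : ℝ) * R) ^ (2 * m) ≤ n := by
      have h3 : (R * R) ^ (2 * m) = 16 ^ (t * m) := by
        rw [hR, ← mul_pow, show 2 * 2 = 4 by norm_num, ← pow_mul,
          show (16 : ℕ) = 4 ^ 2 by norm_num, ← pow_mul]
        congr 1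
        ring
      rw [← h3] at htn
      exact_mod_cast htn
    have h3 : (R : ℝ) * R = (((R : ℝ) * R) ^ (2 * m)) ^ (1 / (2 * m) : ℝ) := by
      rw [← Real.rpow_natCast, ← Real.rpow_mul (by positivity)]
      push_cast
      rw [mul_one_div_cancel (by positivity), Real.rpow_one]
    rw [h3]
    exact Real.rpow_le_rpow (by positivity) h2 (by positivity)
  have hlog : 1 ≤ Real.log n := by
    rw [Real.le_log_iff_exp_le hx0]
    have h2 : (12 : ℝ) ≤ n := by exact_mod_cast hn12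
    exact (Real.exp_one_lt_d9.le.trans (by norm_num)).trans h2
  set e : ℕ := Nat.clog 2 n with he
  have hne : n ≤ 2 ^ e := Nat.le_pow_clog (by norm_num) n
  have he2 : 2 * (e : ℝ) ≤ P * Real.log n := by
    have h2 : 2 ^ (e - 1) < n := by
      have := Nat.pow_pred_clog_lt_self (b := 2) (by norm_num) (x := n) (by omega)
      simpa [he] using this
    have h3 : ((e - 1 : ℕ) : ℝ) * Real.log 2 ≤ Real.log n := by
      rw [← Real.log_pow]
      apply Real.log_le_log (by positivity)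
      exact_mod_cast h2.le
    have h4 : (e : ℝ) ≤ ((e - 1 : ℕ) : ℝ) + 1 := by
      have : e ≤ (e - 1) + 1 := by omega
      exact_mod_cast this
    have h5 : (0.69 : ℝ) ≤ Real.log 2 := by
      have := Real.log_two_gt_d9
      linarith
    have h6 : ((e - 1 : ℕ) : ℝ) * 0.69 ≤ Real.log n :=
      (mul_le_mul_of_nonneg_left h5 (by positivity)).trans h3
    nlinarith
  have hDe : e + e ≤ D := by
    have h2 : ((e + e : ℕ) : ℝ) ≤ D := by
      push_cast
      rw [← hPr] at hD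
      nlinarith
    exact_mod_cast h2
  obtain ⟨d, rfl⟩ : ∃ d, D = d + e + e := ⟨D - (e + e), by omega⟩
  have hd : 3 * P * Real.log n ≤ d := by
    rw [← hPr] at hD
    push_cast at hD
    linarith
  have h2 := average (N := N) (R := R) (by omega) (by omega) hN hσ0 hσ1 hε hne w hw hw1 L c hA
    (fun ω => Nat.pow_le_pow_right (by norm_num) (hNt ω)) (1 / (3 * 2 ^ t)) hcor
  have h3 := cover_le n d P (by omega) (by omega) hd
  have h4 : (1 : ℝ) / (N : ℝ) ^ (2 * R) = 1 / (P : ℝ) := by rw [hP]; push_cast; rfl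
  rw [h4] at h2
  have h5 : (1 : ℝ) / n ≤ 1 / 12 := by
    apply one_div_le_one_div_of_le (by norm_num)
    exact_mod_cast hn12
  have h6 := hn₁ n hnn
  have hl0 : 0 ≤ loss m n M s σ ε := by unfold loss; positivity
  have h7 : (R : ℝ) * (2 * R * loss m n M s σ ε) ≤ 2 * G m n := by
    calc (R : ℝ) * (2 * R * loss m n M s σ ε) = 2 * (R * R * loss m n M s σ ε) := by ring
      _ ≤ 2 * ((n : ℝ) ^ (1 / (2 * m) : ℝ) * loss m n M s σ ε) := by
        have := mul_le_mul_of_nonneg_right hRy hl0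
        linarith
      _ ≤ 2 * G m n := by linarith
  have h8 : 2 * (R : ℝ) * (1 / (3 * 2 ^ t)) = 2 / 3 := by
    have : (R : ℝ) = 2 ^ t := by rw [hR]; push_cast; rfl
    rw [this]
    field_simp
  rw [h8] at h2
  linarith

end Pool.Agent.V8H11.OVC
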