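import Mathlib

set_option autoImplicit false

/-!
# Uniform probabilities on finite types, and monotone events under dense noise
-/

namespace Pool.Agent.V8H11.OVC

open Finset
open scoped Classical

/-- The proportion of the elements of a finite type with the property `p`. -/
noncomputable def pr {α : Type*} [Fintype α] (p : α → Prop) : ℝ :=
  ((univ.filter p).card : ℝ) / Fintype.card α

variable {α β γ : Type*} [Fintype α] [Fintype β] [Fintype γ]

lemma pr_eq (p : α → Prop) [DecidablePred p] :
    pr p = ((univ.filter p).card : ℝ) / Fintype.card α := by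
  unfold pr
  congr!

lemma pr_nonneg (p : α → Prop) : 0 ≤ pr p := by unfold pr; positivity

lemma pr_mono {p q : α → Prop} (h : ∀ x, p x → q x) : pr p ≤ pr q := by
  unfold pr
  gcongr with x hx
  exact h x

lemma pr_le_one (p : α → Prop) : pr p ≤ 1 := by
  unfold pr
  apply div_le_one_of_le₀ _ (by positivity)
  exact_mod_cast Finset.card_le_univ _

lemma pr_or (p q : α → Prop) : pr (fun x => p x ∨ q x) ≤ pr p + pr q := by
  classical
  rw [pr_eq, pr_eq, pr_eq, ← add_div]
  gcongr
  rw [Finset.filter_or]
  exact_mod_cast Finset.card_union_le _ _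

lemma pr_not [Nonempty α] (p : α → Prop) : pr (fun x => ¬ p x) = 1 - pr p := by
  have hc : (Fintype.card α : ℝ) ≠ 0 := by exact_mod_cast Fintype.card_ne_zero
  rw [pr_eq, pr_eq, eq_sub_iff_add_eq, ← add_div, div_eq_one_iff_eq hc]
  have := Finset.card_filter_add_card_filter_not (s := (univ : Finset α)) p
  rw [Finset.card_univ] at this
  rw [add_comm]
  exact_mod_cast this

lemma pr_equiv (e : α ≃ β) (p : β → Prop) : pr (fun x => p (e x)) = pr p := by
  unfold pr
  rw [Fintype.card_congr e]
  congr 2
  exact Finset.card_equiv e (by simp)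

lemma pr_eq_sum (p : α → Prop) : pr p = (∑ x, if p x then (1 : ℝ) else 0) / Fintype.card α := by
  unfold pr
  rw [Finset.sum_boole]

/-- Fubini. -/
lemma pr_prod (p : α × β → Prop) :
    pr p = (∑ a, pr fun b => p (a, b)) / Fintype.card α := by
  rw [pr_eq_sum, Fintype.sum_prod_type]
  simp_rw [pr_eq_sum]
  rw [← Finset.sum_div, Fintype.card_prod, Nat.cast_mul, div_div, mul_comm]

lemma pr_prod_le (p : α × β → Prop) (δ : ℝ) (hδ : 0 ≤ δ) (h : ∀ a, pr (fun b => p (a, b)) ≤ δ) :
    pr p ≤ δ := by
  rw [pr_prod]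
  rcases isEmpty_or_nonempty α with he | he
  · simp [hδ]
  · have hc : (0 : ℝ) < Fintype.card α := by exact_mod_cast Fintype.card_pos
    rw [div_le_iff₀ hc]
    calc ∑ a, pr (fun b => p (a, b)) ≤ ∑ _a : α, δ := Finset.sum_le_sum fun a _ => h a
      _ = δ * Fintype.card α := by simp [mul_comm]

/-- Finitely many events. -/
lemma pr_exists {ι : Type*} (s : Finset ι) (p : ι → α → Prop) (δ : ℝ)
    (h : ∀ i ∈ s, pr (p i) ≤ δ) : pr (fun x => ∃ i ∈ s, p i x) ≤ s.card * δ := by
  classical
  induction s using Finset.induction_on with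
  | empty => simp [pr]
  | insert a s ha ih =>
    have h1 : pr (fun x => ∃ i ∈ insert a s, p i x) ≤ pr (fun x => p a x ∨ ∃ i ∈ s, p i x) := by
      apply pr_mono
      rintro x ⟨i, hi, hx⟩
      rcases Finset.mem_insert.1 hi with rfl | hi
      · exact Or.inl hx
      · exact Or.inr ⟨i, hi, hx⟩
    have h2 := ih fun i hi => h i (Finset.mem_insert_of_mem hi)
    have h3 := h a (Finset.mem_insert_self a s)
    have h4 := pr_or (p a) (fun x => ∃ i ∈ s, p i x)
    rw [Finset.card_insert_of_notMem ha]
    push_cast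
    linarith

/-- Independence of the coordinates. -/
lemma pr_pi {ι : Type*} [Fintype ι] [DecidableEq ι] {V : ι → Type*} [∀ i, Fintype (V i)]
    (P : ∀ i, V i → Prop) :
    pr (fun f : ∀ i, V i => ∀ i, P i (f i)) = ∏ i, pr (P i) := by
  have h : (univ.filter fun f : ∀ i, V i => ∀ i, P i (f i)) =
      Fintype.piFinset fun i => univ.filter (P i) := by
    ext f; simp
  rw [pr_eq, h, Fintype.card_piFinset, Fintype.card_pi]
  unfold pr
  push_cast
  rw [Finset.prod_div_distrib]

/-- Splitting off the first coordinate. -/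
lemma pr_cons {V : Type*} [Fintype V] {d : ℕ} (p : (Fin (d + 1) → V) → Prop) :
    pr p = (∑ v : V, pr fun f : Fin d → V => p (Fin.cons v f)) / Fintype.card V := by
  rw [← pr_prod (fun q : V × (Fin d → V) => p (Fin.cons q.1 q.2))]
  exact (pr_equiv (Fin.consEquiv fun _ : Fin (d + 1) => V) p).symm

/-- The elementary inequality behind `dens`. -/
lemma two_point (m : ℕ) (hm : 1 ≤ m) (a b : ℝ) (ha : 0 ≤ a) (hab : a ≤ b) :
    (a ^ m + b ^ m) / 2 ≤ ((a + (2 * m - 1) * b) / (2 * m)) ^ m := by
  have hm0 : (0 : ℝ) < m := by exact_mod_cast hm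
  have hm1 : (1 : ℝ) ≤ m := by exact_mod_cast hm
  -- with `q = 1 - 1 / (2 m)`
  set q : ℝ := (2 * m - 1) / (2 * m) with hq
  have hq0 : 0 ≤ q := by rw [hq]; apply div_nonneg <;> linarith
  have hq1 : q ≤ 1 := by rw [hq, div_le_one (by linarith)]; linarith
  have hqm : 1 / 2 ≤ q ^ m := by
    have h1 := one_add_mul_le_pow (a := -(1 / (2 * (m : ℝ)))) (by
      rw [neg_le_neg_iff, div_le_iff₀ (by positivity)]; linarith) m
    have h2 : 1 + -(1 / (2 * (m : ℝ))) = q := by rw [hq]; field_simp; ring
    rw [h2] at h1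
    have h3 : 1 + (m : ℝ) * -(1 / (2 * (m : ℝ))) = 1 / 2 := by field_simp; ring
    linarith
  have he : (a + (2 * m - 1) * b) / (2 * m) = q * b + (1 - q) * a := by
    rw [hq]; field_simp; ring
  rw [he, add_pow, Finset.sum_range_succ]
  have hb : 0 ≤ b := ha.trans hab
  have h5 : ∀ k ∈ Finset.range m, a ^ m * (q ^ k * (1 - q) ^ (m - k) * (m.choose k : ℝ)) ≤
      (q * b) ^ k * ((1 - q) * a) ^ (m - k) * (m.choose k : ℝ) := by
    intro k hk
    have hk' : k < m := Finset.mem_range.1 hk
    have h6 : a ^ m = a ^ k * a ^ (m - k) := by rw [← pow_add]; congr 1; omega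
    rw [h6, mul_pow, mul_pow]
    have h7 : a ^ k ≤ b ^ k := pow_le_pow_left₀ ha hab k
    have h8 : 0 ≤ q ^ k * (1 - q) ^ (m - k) * (m.choose k : ℝ) * a ^ (m - k) := by
      have : 0 ≤ 1 - q := by linarith
      positivity
    nlinarith [mul_le_mul_of_nonneg_left h7 h8]
  have h9 := Finset.sum_le_sum h5
  rw [← Finset.mul_sum] at h9
  have h10 : ∑ k ∈ Finset.range m, q ^ k * (1 - q) ^ (m - k) * (m.choose k : ℝ) = 1 - q ^ m := by
    have h11 := add_pow q (1 - q) m
    rw [Finset.sum_range_succ] at h11
    simp at h11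
    linarith
  rw [h10] at h9
  have h12 : a ^ m ≤ b ^ m := pow_le_pow_left₀ ha hab m
  have h13 : (q * b) ^ m * ((1 - q) * a) ^ (m - m) * (m.choose m : ℝ) = q ^ m * b ^ m := by
    simp [mul_pow]
  rw [h13]
  nlinarith [pow_nonneg ha m, pow_nonneg hb m]

/-- The noise vector of a sequence of elements of `Fin N`: the coordinates are `1` except where the
sequence is `0`. -/
def bits {N d : ℕ} [NeZero N] (w : Fin d → Fin N) : Fin d → Bool := fun k => decide (w k ≠ 0)

/-- **Monotone events under dense noise.** -/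
theorem dens (m : ℕ) (hm : 1 ≤ m) (N : ℕ) [NeZero N] (hN : N = 2 * m) : ∀ (d : ℕ)
    (g : (Fin d → Bool) → Prop) (_hg : Monotone g),
    pr g ≤ (pr fun w : Fin d → Fin N => g (bits w)) ^ m := by
  intro d
  induction d with
  | zero =>
    intro g _
    by_cases h : g (fun i => i.elim0)
    · have h1 : ∀ x : Fin 0 → Bool, g x := fun x => by
        have : x = fun i => i.elim0 := by funext i; exact i.elim0
        rw [this]; exact h
      have h2 : pr (fun w : Fin 0 → Fin N => g (bits w)) = 1 := by
        unfold pr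
        have : (univ.filter fun w : Fin 0 → Fin N => g (bits w)) = univ := by
          ext; simp [h1]
        rw [this]
        simp
      rw [h2, one_pow]
      exact pr_le_one _
    · have h1 : ∀ x : Fin 0 → Bool, ¬ g x := fun x => by
        have : x = fun i => i.elim0 := by ext i; exact i.elim0
        rw [this]; exact h
      have h2 : pr g = 0 := by
        unfold pr
        have : univ.filter g = ∅ := by ext x; simp [h1]
        rw [this]; simp
      rw [h2]
      exact pow_nonneg (pr_nonneg _) m
  | succ d ih =>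
    intro g hg
    set g0 : (Fin d → Bool) → Prop := fun x => g (Fin.cons false x) with hg0
    set g1 : (Fin d → Bool) → Prop := fun x => g (Fin.cons true x) with hg1
    have hm0 : Monotone g0 := fun x y hxy => hg (Fin.cons_le_cons.2 ⟨le_rfl, hxy⟩)
    have hm1 : Monotone g1 := fun x y hxy => hg (Fin.cons_le_cons.2 ⟨le_rfl, hxy⟩)
    have h01 : ∀ x, g0 x → g1 x := fun x => hg (Fin.cons_le_cons.2 ⟨Bool.false_le _, le_rfl⟩)
    have e1 : pr g = (pr g0 + pr g1) / 2 := by
      rw [pr_cons]
      simp [hg0, hg1, add_comm]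
    have e2 : pr (fun w : Fin (d + 1) → Fin N => g (bits w)) =
        ((pr fun w : Fin d → Fin N => g0 (bits w)) +
          (2 * m - 1) * pr fun w : Fin d → Fin N => g1 (bits w)) / (2 * m) := by
      rw [pr_cons]
      have h1 : ∀ v : Fin N, (pr fun f : Fin d → Fin N => g (bits (Fin.cons v f : Fin (d + 1) → Fin N))) =
          if v = 0 then (pr fun w : Fin d → Fin N => g0 (bits w)) else
            pr fun w : Fin d → Fin N => g1 (bits w) := by
        intro v
        have h2 : ∀ f : Fin d → Fin N, bits (Fin.cons v f : Fin (d + 1) → Fin N) =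
            Fin.cons (decide (v ≠ 0)) (bits f) := by
          intro f
          ext k
          refine Fin.cases ?_ (fun k => ?_) k <;> simp [bits]
        split_ifs with h
        · subst h; simp [h2, hg0]
        · simp [h2, hg1, h]
      simp_rw [h1]
      rw [Finset.sum_ite, Finset.sum_const, Finset.sum_const]
      have h3 : (univ.filter fun v : Fin N => v = 0).card = 1 := by
        rw [Finset.filter_eq']; simp
      have h4 : (univ.filter fun v : Fin N => ¬ v = 0).card = N - 1 := by
        rw [Finset.filter_not, Finset.card_sdiff_of_subset (Finset.filter_subset _ _), h3]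
        simp
      have hN1 : 1 ≤ N := by omega
      have hN2 : (N : ℝ) = 2 * m := by exact_mod_cast hN
      rw [h3, h4, Fintype.card_fin, nsmul_eq_mul, nsmul_eq_mul, Nat.cast_sub hN1, hN2]
      push_cast
      ring
    rw [e1, e2]
    have h3 : (pr fun w : Fin d → Fin N => g0 (bits w)) ≤ pr fun w : Fin d → Fin N => g1 (bits w) :=
      pr_mono fun w h => h01 _ h
    have h4 := two_point m hm _ _ (pr_nonneg _) h3
    have h5 := ih g0 hm0
    have h6 := ih g1 hm1
    refine le_trans ?_ h4
    linarith

end Pool.Agent.V8H11.OVC
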